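import Pool.Agent.R370.HS.B

/-!
# Fields of definition and dimensions of closures
-/

set_option autoImplicit false
set_option linter.unusedSectionVars false
set_option linter.style.haveILetI false

namespace Pool.Agent.R370.TZ

open MvPolynomial Pool.Agent.R948 Pool.Agent.R948.ZP Pool.Agent.R370.JU Pool.Agent.R370.HS

section

variable {k K : Type} [Field k] [Field K] [Algebra k K] {ι : Type}

theorem comp_mul_map (e : Module.Basis.ofVectorSpaceIndex k K) (g : MvPolynomial ι K)
    (p : MvPolynomial ι k) :
    comp e (g * MvPolynomial.map (algebraMap k K) p) = comp e g * p := by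
  classical
  ext m
  rw [coeff_comp, coeff_mul, coeff_mul, map_sum]
  refine Finset.sum_congr rfl fun x _ => ?_
  rw [coeff_map, coeff_comp, mul_comm, ← Algebra.smul_def, map_smul, smul_eq_mul, mul_comm]

/-- the components of an element of an extended ideal -/
theorem comp_mem (P : Ideal (MvPolynomial ι k)) {f : MvPolynomial ι K}
    (hf : f ∈ P.map (MvPolynomial.map (algebraMap k K))) (e : Module.Basis.ofVectorSpaceIndex k K) :
    comp e f ∈ P := by
  suffices H : ∀ g : MvPolynomial ι K, comp e (g * f) ∈ P by
    have h1 := H 1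
    rwa [one_mul] at h1
  rw [Ideal.map] at hf
  induction hf using Submodule.span_induction with
  | mem x hx =>
    obtain ⟨p, hp, rfl⟩ := hx
    intro g
    have h1 := comp_mul_map e g p
    exact h1 ▸ P.mul_mem_left _ hp
  | zero =>
    intro g
    have h1 := comp_mul_map e g 0
    rw [map_zero, mul_zero] at h1
    rw [mul_zero] at h1 ⊢
    rw [h1]
    exact P.zero_mem
  | add x y _ _ hx hy =>
    intro g
    rw [mul_add, comp_add]
    exact P.add_mem (hx g) (hy g)
  | smul a x _ hx =>
    intro g
    rw [smul_eq_mul, ← mul_assoc]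
    exact hx (g * a)

/-- the dimension over a field of definition -/
theorem tdP_comap_le [Fintype ι] (Q : Ideal (MvPolynomial ι K)) [Q.IsPrime]
    [(Q.comap (MvPolynomial.map (algebraMap k K))).IsPrime]
    (hQ : (Q.comap (MvPolynomial.map (algebraMap k K))).map
      (MvPolynomial.map (algebraMap k K)) = Q) :
    tdP (Q.comap (MvPolynomial.map (algebraMap k K))) ≤ tdP Q := by
  classical
  obtain ⟨S, hS, hind, -⟩ := exists_td k (cp (Q.comap (MvPolynomial.map (algebraMap k K))))
  have h1 : AlgebraicIndependent K (fun i : S => cp Q i) := by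
    rw [algebraicIndependent_iff]
    intro p hp
    have h2 : rename Subtype.val p ∈ Q := by
      rw [← aeval_cp_eq_zero, aeval_rename]
      exact hp
    rw [← hQ] at h2
    have h3 : ∀ e, comp (k := k) e p = 0 := by
      intro e
      have h4 := comp_mem _ h2 e
      rw [comp_rename, ← aeval_cp_eq_zero, aeval_rename] at h4
      exact algebraicIndependent_iff.1 hind _ h4
    obtain ⟨E, hE⟩ := eq_sum_comp (k := k) p
    rw [hE]
    refine Finset.sum_eq_zero fun e _ => ?_
    rw [h3 e, map_zero, mul_zero]
  rw [tdP, ← hS]
  exact le_td K h1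

end

/-- transitivity of algebraicity -/
theorem alg_trans {k F E : Type} [Field k] [Field F] [Field E] [Algebra k E] [Algebra F E]
    (s : Set E) (hF : ∀ a : F, IsAlgebraic (Algebra.adjoin k s) (algebraMap F E a)) (t : Set E)
    (ht : ∀ a ∈ t, IsAlgebraic (Algebra.adjoin k s) a) {x : E}
    (hx : IsAlgebraic (Algebra.adjoin F t) x) : IsAlgebraic (Algebra.adjoin k s) x := by
  let Cl := Subalgebra.algebraicClosure (Algebra.adjoin k s) E
  have hmem : ∀ a ∈ Algebra.adjoin F t, a ∈ Cl := by
    intro a ha
    induction ha using Algebra.adjoin_induction with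
    | mem x hx => exact ht x hx
    | algebraMap r => exact hF r
    | add x y _ _ hx hy => exact add_mem hx hy
    | mul x y _ _ hx hy => exact mul_mem hx hy
  let f : Algebra.adjoin F t →+* Cl :=
    ((Algebra.adjoin F t).val : Algebra.adjoin F t →+* E).codRestrict Cl fun a => hmem a.1 a.2
  have hf : Function.Injective f := by
    intro a b hab
    have h1 : (f a : E) = f b := congrArg Subtype.val hab
    exact Subtype.ext h1
  have h1 : IsAlgebraic Cl x := by
    obtain ⟨p, hp, hpx⟩ := hx
    refine ⟨p.map f, (Polynomial.map_ne_zero_iff hf).2 hp, ?_⟩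
    rw [Polynomial.aeval_def, Polynomial.eval₂_map]
    rw [Polynomial.aeval_def] at hpx
    exact hpx
  exact h1.restrictScalars (Algebra.adjoin k s)

end Pool.Agent.R370.TZ
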