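import Pool.Agent.R370.TZ.A

/-!
# The jump locus
-/

set_option autoImplicit false
set_option linter.unusedSectionVars false
set_option linter.style.haveILetI false

namespace Pool.Agent.R370.TZ

open MvPolynomial Pool.Agent.R948 Pool.Agent.R948.ZP Pool.Agent.R370.JU Pool.Agent.R370.HS

/-- elements of a generated field are algebraic over the generated ring -/
theorem alg_adjoin {k K E : Type} [Field k] [Field K] [Field E] [Algebra k K] [Algebra k E]
    (f : K →ₐ[k] E) (s : Set K) {a : K} (ha : a ∈ IntermediateField.adjoin k s) :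
    IsAlgebraic (Algebra.adjoin k (f '' s)) (f a) := by
  induction ha using IntermediateField.adjoin_induction with
  | mem x hx =>
    exact isAlgebraic_algebraMap (A := E)
      (⟨_, Algebra.subset_adjoin ⟨x, hx, rfl⟩⟩ : Algebra.adjoin k (f '' s))
  | algebraMap x =>
    rw [AlgHom.commutes]
    exact isAlgebraic_algebraMap (A := E)
      (⟨_, Subalgebra.algebraMap_mem _ x⟩ : Algebra.adjoin k (f '' s))
  | add x y _ _ hx hy => rw [map_add]; exact hx.add hy
  | inv x _ hx => rw [map_inv₀]; exact IsAlgebraic.inv_iff.2 hx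
  | mul x y _ _ hx hy => rw [map_mul]; exact hx.mul hy

theorem alg_mono {k E : Type} [Field k] [Field E] [Algebra k E] {s t : Set E} {x : E}
    (hx : IsAlgebraic (Algebra.adjoin k s) x)
    (h : ∀ a ∈ s, IsAlgebraic (Algebra.adjoin k t) a) : IsAlgebraic (Algebra.adjoin k t) x :=
  alg_trans t (fun a => isAlgebraic_algebraMap (A := E)
    (⟨_, Subalgebra.algebraMap_mem _ a⟩ : Algebra.adjoin k t)) s h hx

section

variable {k F E : Type} [Field k] [Field F] [Field E] [Algebra k E] [Algebra F E]
  {ι κ : Type} [Fintype ι] [Fintype κ]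

theorem td_le_add (y : ι → E) (b : κ → E)
    (hF : ∀ a : F, IsAlgebraic (Algebra.adjoin k (Set.range b)) (algebraMap F E a)) :
    td k (Sum.elim y b) ≤ td F y + td k b := by
  classical
  obtain ⟨S, hS, -, hS2⟩ := exists_td F y
  obtain ⟨T, hT, -, hT2⟩ := exists_td k b
  let w : S ⊕ T → E := Sum.elim (fun i => y i) (fun j => b j)
  have hb : ∀ j, IsAlgebraic (Algebra.adjoin k (Set.range w)) (b j) := by
    intro j
    refine alg_mono (hT2 j) ?_
    rintro _ ⟨i, hi, rfl⟩
    exact alg_of_range (F := k) w (Sum.inr ⟨i, hi⟩)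
  have hy : ∀ i, IsAlgebraic (Algebra.adjoin k (Set.range w)) (y i) := by
    intro i
    refine alg_trans (F := F) _ (fun a => ?_) _ ?_ (hS2 i)
    · refine alg_mono (hF a) ?_
      rintro _ ⟨j, rfl⟩
      exact hb j
    · rintro _ ⟨i, hi, rfl⟩
      exact alg_of_range (F := k) w (Sum.inl ⟨i, hi⟩)
  have h1 : td k (Sum.elim y b) ≤ td k w := by
    refine td_le_of_alg k fun s => ?_
    rcases s with i | j
    · exact hy i
    · exact hb j
  refine h1.trans ((td_le_card k w).trans ?_)
  rw [Fintype.card_sum, Fintype.card_coe, Fintype.card_coe, hS, hT]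

/-- a basis relative to a family -/
theorem exists_rel_basis (y : ι → E) (b : κ → E) : ∃ S : Finset κ,
    S.card + td k y ≤ td k (Sum.elim y b) ∧
    ∀ j, IsAlgebraic (Algebra.adjoin k (Set.range (Sum.elim y fun j : S => b j))) (b j) := by
  classical
  let L := IntermediateField.adjoin k (Set.range y)
  let y' : ι → L := fun i => ⟨y i, IntermediateField.subset_adjoin _ _ ⟨i, rfl⟩⟩
  obtain ⟨S, hS, -, hS2⟩ := exists_td L b
  refine ⟨S, ?_, fun j => ?_⟩
  · have h1 := td_add_le (F := k) (k := L) (K := E) b y'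
    have h2 : td k y ≤ td k y' := by
      refine td_le_of_ker k fun f hf => ?_
      have h3 : aeval y f = algebraMap L E (aeval y' f) := by
        rw [← MvPolynomial.aeval_algebraMap_apply]
        rfl
      rw [h3, hf, map_zero]
    have h3 : td k (Sum.elim b fun j => algebraMap L E (y' j)) ≤ td k (Sum.elim y b) := by
      refine td_le_of_alg k fun s => ?_
      rcases s with j | i
      · exact alg_of_range (F := k) (Sum.elim y b) (Sum.inr j)
      · exact alg_of_range (F := k) (Sum.elim y b) (Sum.inl i)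
    omega
  · refine alg_trans (F := L) _ (fun a => ?_) _ ?_ (hS2 j)
    · have h1 := alg_adjoin (AlgHom.id k E) (Set.range y) a.2
      refine alg_mono h1 ?_
      rintro _ ⟨_, ⟨i, rfl⟩, rfl⟩
      exact alg_of_range (F := k) (Sum.elim y fun j : S => b j) (Sum.inl i)
    · rintro _ ⟨i, hi, rfl⟩
      exact alg_of_range (F := k) (Sum.elim y fun j : S => b j) (Sum.inr ⟨i, hi⟩)

end

section

variable {k K : Type} [Field k] [Field K] [Algebra k K] {ι : Type} [Fintype ι]

/-- generic points -/
noncomputable def gp (P : Ideal (MvPolynomial ι K)) [P.IsPrime] :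
    ι → FractionRing (MvPolynomial ι K ⧸ P) := fun i => algebraMap _ _ (cp P i)

theorem aeval_gp (P : Ideal (MvPolynomial ι K)) [P.IsPrime] (f : MvPolynomial ι K) :
    aeval (gp P) f = 0 ↔ f ∈ P := by
  have h1 : aeval (gp P) f = algebraMap (MvPolynomial ι K ⧸ P)
      (FractionRing (MvPolynomial ι K ⧸ P)) (aeval (cp P) f) :=
    MvPolynomial.aeval_algebraMap_apply (FractionRing (MvPolynomial ι K ⧸ P)) (cp P) f
  rw [h1, map_eq_zero_iff _ (IsFractionRing.injective _ _), aeval_cp_eq_zero]

theorem aeval_gp' (P : Ideal (MvPolynomial ι K)) [P.IsPrime] (f : MvPolynomial ι k) :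
    aeval (gp P) f = 0 ↔ f ∈ P.comap (MvPolynomial.map (algebraMap k K)) := by
  rw [Ideal.mem_comap, ← aeval_gp, aeval_map_algebraMap]

/-- **The jump locus.** -/
theorem jump (P : Ideal (MvPolynomial ι K)) [P.IsPrime]
    [(P.comap (MvPolynomial.map (algebraMap k K))).IsPrime] :
    ∃ D : MvPolynomial ι K, D ∉ P ∧ ∀ (Q : Ideal (MvPolynomial ι K)) [Q.IsPrime]
      [(Q.comap (MvPolynomial.map (algebraMap k K))).IsPrime], P ≤ Q → D ∉ Q →
      tdP (P.comap (MvPolynomial.map (algebraMap k K))) + tdP Q ≤
        tdP (Q.comap (MvPolynomial.map (algebraMap k K))) + tdP P := by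
  classical
  obtain ⟨C₀, hC, hC2⟩ := exists_coeffs P
  haveI : Fintype C₀ := hC.fintype
  let b : C₀ → K := Subtype.val
  let F := IntermediateField.adjoin k C₀
  have hPF := hC2 F (fun c hc => ⟨⟨c, IntermediateField.subset_adjoin _ _ hc⟩, rfl⟩)
  haveI : (P.comap (MvPolynomial.map (algebraMap F K))).IsPrime := Ideal.comap_isPrime _ _
  let E := FractionRing (MvPolynomial ι K ⧸ P)
  let y : ι → E := gp P
  let bE : C₀ → E := fun j => algebraMap K E (b j)
  -- upper bound for the transcendence degree of `(y, b)`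
  have h1 : td k (Sum.elim y bE) ≤ td F y + td k bE := by
    refine td_le_add y bE fun a => ?_
    have h2 := alg_adjoin (IsScalarTower.toAlgHom k K E) C₀ a.2
    have h3 : (IsScalarTower.toAlgHom k K E) '' C₀ = Set.range bE := by
      ext x
      constructor
      · rintro ⟨c, hc, rfl⟩
        exact ⟨⟨c, hc⟩, rfl⟩
      · rintro ⟨j, rfl⟩
        exact ⟨j.1, j.2, rfl⟩
    rw [h3] at h2
    exact h2
  have h2 : td F y ≤ tdP P := by
    refine le_trans (td_le_tdP (P.comap (MvPolynomial.map (algebraMap F K))) y fun f hf => ?_)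
      (tdP_comap_le P hPF)
    exact (aeval_gp' P f).2 hf
  have h3 : td k bE ≤ td k b := by
    refine td_le_of_ker k fun f hf => ?_
    have h4 : aeval bE f = algebraMap K E (aeval b f) :=
      MvPolynomial.aeval_algebraMap_apply E b f
    rw [h4, hf, map_zero]
  obtain ⟨S, hS, hSalg⟩ := exists_rel_basis (k := k) y bE
  have h4 : tdP (P.comap (MvPolynomial.map (algebraMap k K))) ≤ td k y :=
    tdP_le_td _ _ fun f hf => (aeval_gp' P f).1 hf
  -- relations
  let σ : MvPolynomial (ι ⊕ S) k →ₐ[k] MvPolynomial ι K :=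
    aeval (Sum.elim (fun i => (MvPolynomial.X i : MvPolynomial ι K)) fun j => C (b j))
  have hσ : ∀ (Q : Ideal (MvPolynomial ι K)) [Q.IsPrime] (G : MvPolynomial (ι ⊕ S) k),
      aeval (gp Q) (σ G) = aeval (Sum.elim (gp Q) fun j : S =>
        algebraMap K (FractionRing (MvPolynomial ι K ⧸ Q)) (b j)) G := by
    intro Q _ G
    have h5 : ((aeval (gp Q) : MvPolynomial ι K →ₐ[K] _).restrictScalars k).comp σ =
        aeval (Sum.elim (gp Q) fun j : S =>
          algebraMap K (FractionRing (MvPolynomial ι K ⧸ Q)) (b j)) := by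
      ext s
      rcases s with i | j
      · simp [σ]
      · simp [σ]
    exact DFunLike.congr_fun h5 G
  have hrel : ∀ j : C₀, ∃ (N : ℕ) (G : ℕ → MvPolynomial (ι ⊕ S) k) (n : ℕ), n ≤ N ∧
      σ (G n) ∉ P ∧ ∑ n ∈ Finset.range (N + 1), σ (G n) * C (b j) ^ n ∈ P := by
    intro j
    obtain ⟨q, hq, hq2⟩ := hSalg j
    have hcoef : ∀ n, ∃ g : MvPolynomial (ι ⊕ S) k,
        aeval (Sum.elim y fun j : S => bE j) g = (q.coeff n : E) := by
      intro n
      have h6 := Algebra.adjoin_range_eq_range_aeval k (Sum.elim y fun j : S => bE j)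
      exact h6.le (q.coeff n).2
    choose G hG using hcoef
    refine ⟨q.natDegree, G, q.natDegree, le_rfl, fun h5 => ?_, ?_⟩
    · rw [← aeval_gp, hσ] at h5
      have h6 : (q.coeff q.natDegree : E) = 0 := by
        rw [← hG]
        exact h5
      apply hq
      rw [← Polynomial.leadingCoeff_eq_zero]
      exact Subtype.ext h6
    · rw [← aeval_gp, map_sum]
      rw [Polynomial.aeval_eq_sum_range] at hq2
      rw [← hq2]
      refine Finset.sum_congr rfl fun n _ => ?_
      rw [map_mul, map_pow, hσ, aeval_C, Algebra.smul_def]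
      congr 1
      exact hG n
  choose N G n₀ hn₀ hG1 hG2 using hrel
  refine ⟨∏ j : C₀, σ (G j (n₀ j)), fun hD => ?_, ?_⟩
  · obtain ⟨j, -, hj⟩ := (Ideal.IsPrime.prod_mem_iff (p := P)).1 hD
    exact hG1 j hj
  · intro Q _ _ hPQ hDQ
    have hGQ : ∀ j, σ (G j (n₀ j)) ∉ Q := by
      intro j hj
      apply hDQ
      exact (Ideal.IsPrime.prod_mem_iff (p := Q)).2 ⟨j, Finset.mem_univ _, hj⟩
    let E' := FractionRing (MvPolynomial ι K ⧸ Q)
    let z : ι → E' := gp Q
    let bQ : C₀ → E' := fun j => algebraMap K E' (b j)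
    have hz : td K z + td k b ≤ td k (Sum.elim z bQ) := td_add_le (F := k) (k := K) (K := E') z b
    have hz2 : tdP Q ≤ td K z := tdP_le_td _ _ fun f hf => (aeval_gp Q f).1 hf
    have hz3 : td k z ≤ tdP (Q.comap (MvPolynomial.map (algebraMap k K))) :=
      td_le_tdP _ _ fun f hf => (aeval_gp' Q f).2 hf
    have hz4 : td k (Sum.elim z bQ) ≤ td k (Sum.elim z fun j : S => bQ j) := by
      refine td_le_of_alg k fun s => ?_
      rcases s with i | j
      · exact alg_of_range (F := k) (Sum.elim z fun j : S => bQ j) (Sum.inl i)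
      · have hmem : ∀ n, aeval (Sum.elim z fun j : S => bQ j) (G j n) ∈
            Algebra.adjoin k (Set.range (Sum.elim z fun j : S => bQ j)) := by
          intro n
          rw [Algebra.adjoin_range_eq_range_aeval]
          exact ⟨_, rfl⟩
        refine ⟨∑ n ∈ Finset.range (N j + 1), Polynomial.C (⟨_, hmem n⟩ :
          Algebra.adjoin k (Set.range (Sum.elim z fun j : S => bQ j))) * Polynomial.X ^ n,
          fun h0 => ?_, ?_⟩
        · have h5 := congrArg (fun p => Polynomial.coeff p (n₀ j)) h0
          simp only [Polynomial.finsetSum_coeff, Polynomial.coeff_C_mul, Polynomial.coeff_X_pow,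
            Polynomial.coeff_zero, mul_ite, mul_one, mul_zero] at h5
          rw [Finset.sum_ite_eq (Finset.range (N j + 1)) (n₀ j), if_pos (Finset.mem_range.2
            (Nat.lt_succ_of_le (hn₀ j)))] at h5
          apply hGQ j
          rw [← aeval_gp, hσ]
          exact congrArg Subtype.val h5
        · have h5 := hPQ (hG2 j)
          rw [← aeval_gp, map_sum] at h5
          change Polynomial.aeval (bQ j) _ = 0
          rw [map_sum, ← h5]
          refine Finset.sum_congr rfl fun n _ => ?_
          rw [map_mul, map_pow, map_mul, map_pow, hσ, aeval_C, Polynomial.aeval_C,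
            Polynomial.aeval_X]
          rfl
    have hz5 := td_sum_le' (k := k) z (fun j : S => bQ j)
    rw [Fintype.card_coe] at hz5
    omega

end

end Pool.Agent.R370.TZ
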