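import Pool.Agent.R370.TZ.B
import Pool.Agent.R370.HS.F

/-!
# Optimal subvarieties and the closure over a field of definition
-/

set_option autoImplicit false
set_option linter.unusedSectionVars false
set_option linter.style.haveILetI false

namespace Pool.Agent.R370.TZ

open MvPolynomial Pool.Agent.R948 Pool.Agent.R948.ZP Pool.Agent.R370.JU Pool.Agent.R370.HS

/-- The dimension over `k` of a subvariety `A` of `X`: the dimension of the smallest closed subset
of `X` defined over `k` which contains `A`. -/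
noncomputable def kdim (k : Type) [Field k] {K : Type} [Field K] [Algebra k K] {ι : Type}
    [Fintype ι] (X A : Set (ι → K)) : ℤ := dim (clo k X A)

section

variable {k K : Type} [Field k] [Field K] [Algebra k K] [IsAlgClosed k] [IsAlgClosed K]
  {ι : Type} [Fintype ι] {X : Set (ι → K)} {𝒮 : Set (Set (ι → K))} {h : Set (ι → K) → ℤ}

theorem td_le_cont (A : Set (ι → K)) [(van A).IsPrime] [(cont k A).IsPrime] :
    tdP (van A) ≤ tdP (cont k A) := by
  classical
  have h1 : tdP (van A) ≤ td k (cp (van A)) := by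
    obtain ⟨S, hS, hind, -⟩ := exists_td K (cp (van A))
    rw [tdP, ← hS]
    exact le_td k (hind.restrictScalars (algebraMap k K).injective)
  have h2 : td k (cp (van A)) ≤ tdP (cont k A) := by
    refine td_le_tdP _ _ fun f hf => ?_
    have h3 : aeval (cp (van A)) f = aeval (cp (van A)) (MvPolynomial.map (algebraMap k K) f) := by
      rw [aeval_map_algebraMap]
    rw [h3, aeval_cp_eq_zero]
    exact hf
  exact h1.trans h2

theorem cont_clo (hX : QuasiProjective X) {A T : Set (ι → K)} (hA : Subvariety X A)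
    (hT : Subvariety X T) (hTd : Def k T) (hAT : A ⊆ T) : cont k (clo k X A) = cont k A := by
  refine le_antisymm (cont_anti (subset_clo hA.subset)) fun g hg => ?_
  change MvPolynomial.map (algebraMap k K) g ∈ van (clo k X A)
  rw [van_clo (k := k) hX hA hT hTd hAT]
  exact Ideal.mem_map_of_mem _ hg

theorem vd_clo_eq (hX : QuasiProjective X) {A T : Set (ι → K)} (hA : Subvariety X A)
    (hT : Subvariety X T) (hTd : Def k T) (hAT : A ⊆ T) [(cont k A).IsPrime] :
    vd (clo k X A) = tdP (cont k A) := by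
  haveI : Infinite K := IsAlgClosed.instInfinite
  refine le_antisymm ?_ (vd_clo hX hA hT hTd hAT)
  have hc := clo_sub (k := k) hX hA hT hTd hAT
  haveI := hc.prime hX.cone
  have h1 := cont_clo (k := k) hX hA hT hTd hAT
  haveI : (cont k (clo k X A)).IsPrime := cont_prime (k := k) hX.cone hc
  rw [vd_eq]
  have h2 := td_le_cont (k := k) (clo k X A)
  have h3 : tdP (cont k (clo k X A)) = tdP (cont k A) := by
    congr 1
  omega

/-- closed sets given by one homogeneous polynomial -/
theorem closed_zero (hX : IsCone X) {f : MvPolynomial ι K} {N : ℕ} (hf : f.IsHomogeneous N) :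
    Closed X (X ∩ zeros {f}) := by
  refine ⟨fun x hx c hc => ⟨hX x hx.1 c hc, ?_⟩, {f}, rfl⟩
  intro f' hf'
  rw [Set.mem_singleton_iff] at hf'
  rw [hf', eval_smul_of_hom hf, hx.2 f rfl, mul_zero]

theorem subset_zero {A : Set (ι → K)} (hA : A ⊆ X) {f : MvPolynomial ι K} :
    A ⊆ X ∩ zeros {f} ↔ f ∈ van A := by
  constructor
  · exact fun h1 x hx => (h1 hx).2 f rfl
  · intro h1 x hx
    refine ⟨hA hx, fun f' hf' => ?_⟩
    rw [Set.mem_singleton_iff.1 hf']
    exact h1 x hx

/-- a homogeneous component which does not vanish -/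
theorem exists_component_not_mem {V : Set (ι → K)} {f : MvPolynomial ι K} (hf : f ∉ van V) :
    ∃ n, homogeneousComponent n f ∉ van V := by
  by_contra hcon
  push Not at hcon
  apply hf
  rw [← sum_homogeneousComponent f]
  exact Ideal.sum_mem _ fun n _ => hcon n

/-- **The jump locus, geometric form.** -/
theorem exists_jump (hX : QuasiProjective X) {V T : Set (ι → K)} (hV : Subvariety X V)
    (hT : Subvariety X T) (hTd : Def k T) (hVT : V ⊆ T) :
    ∃ D, Closed X D ∧ ¬ V ⊆ D ∧ ∀ A, Subvariety X A → A ⊆ V → ¬ A ⊆ D →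
      vd (clo k X V) + vd A ≤ vd (clo k X A) + vd V := by
  haveI : Infinite K := IsAlgClosed.instInfinite
  haveI := hV.prime hX.cone
  haveI : ((van V).comap (MvPolynomial.map (algebraMap k K))).IsPrime :=
    cont_prime (k := k) hX.cone hV
  haveI := cont_prime (k := k) hX.cone hV
  obtain ⟨D, hD, hD2⟩ := jump (k := k) (van V)
  obtain ⟨n, hn⟩ := exists_component_not_mem hD
  refine ⟨_, closed_zero hX.cone (homogeneousComponent_isHomogeneous n D), fun h1 => hn
    ((subset_zero hV.subset).1 h1), fun A hA hAV hAD => ?_⟩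
  haveI := hA.prime hX.cone
  haveI : ((van A).comap (MvPolynomial.map (algebraMap k K))).IsPrime :=
    cont_prime (k := k) hX.cone hA
  haveI := cont_prime (k := k) hX.cone hA
  have h1 : D ∉ van A := fun h2 => hAD ((subset_zero hA.subset).2 (van_comp hA.closed.1 h2 n))
  have h2 := hD2 (van A) (van_anti hAV) h1
  rw [vd_clo_eq (k := k) hX hV hT hTd hVT, vd_clo_eq (k := k) hX hA hT hTd (hAV.trans hVT),
    vd_eq, vd_eq]
  exact h2

theorem comp_hom (e : Module.Basis.ofVectorSpaceIndex k K) (n : ℕ) {f : MvPolynomial ι K}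
    (hf : f.IsHomogeneous n) : (comp e f).IsHomogeneous n := by
  intro m hm
  apply hf
  intro h0
  apply hm
  rw [coeff_comp, h0, map_zero]

/-- closures over `k` in a proper closed subset -/
theorem exists_cover (hX : QuasiProjective X) {V T : Set (ι → K)} (hV : Subvariety X V)
    (hT : Subvariety X T) (hTd : Def k T) (hVT : V ⊆ T) {W₀ : Set (ι → K)} (hW₀ : Closed X W₀)
    (hVW : ¬ clo k X V ⊆ W₀) : ∃ W, Closed X W ∧ ¬ V ⊆ W ∧
      ∀ A, Subvariety X A → A ⊆ T → clo k X A ⊆ W₀ → A ⊆ W := by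
  haveI : Infinite K := IsAlgClosed.instInfinite
  haveI := cont_prime (k := k) hX.cone hV
  have h1 : ∃ f ∈ van W₀, f ∉ van (clo k X V) := by
    by_contra hcon
    push Not at hcon
    exact hVW (Closed.le_of_van (clo_sub (k := k) hX hV hT hTd hVT).subset hW₀ hcon)
  obtain ⟨f₀, hf₀, hf₀'⟩ := h1
  obtain ⟨n, hn⟩ := exists_component_not_mem hf₀'
  have hfW := van_comp hW₀.1 hf₀ n
  have hfh := homogeneousComponent_isHomogeneous n f₀
  set f := homogeneousComponent n f₀ with hf
  have h2 : ∃ e, comp (k := k) e f ∉ cont k V := by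
    by_contra hcon
    push Not at hcon
    apply hn
    rw [van_clo (k := k) hX hV hT hTd hVT]
    exact (mem_map_iff (K := K) (cont k V) f).2 hcon
  obtain ⟨e, he⟩ := h2
  have hgh : (MvPolynomial.map (algebraMap k K) (comp (k := k) e f)).IsHomogeneous n :=
    (comp_hom e n hfh).map _
  refine ⟨_, closed_zero hX.cone hgh, fun h3 => he ((subset_zero hV.subset).1 h3),
    fun A hA hAT hAW => (subset_zero hA.subset).2 ?_⟩
  have h3 : f ∈ van (clo k X A) := van_anti hAW hfW
  rw [van_clo (k := k) hX hA hT hTd hAT] at h3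
  haveI := cont_prime (k := k) hX.cone hA
  exact (mem_map_iff (K := K) (cont k A) f).1 h3 e

theorem kdim_mono (hX : QuasiProjective X) {A B T : Set (ι → K)} (hA : Subvariety X A)
    (hB : Subvariety X B) (hT : Subvariety X T) (hTd : Def k T) (hBT : B ⊆ T) (hAB : A ⊆ B) :
    kdim k X A ≤ kdim k X B := by
  haveI : Infinite K := IsAlgClosed.instInfinite
  have hcA := clo_sub (k := k) hX hA hT hTd (hAB.trans hBT)
  have hcB := clo_sub (k := k) hX hB hT hTd hBT
  have hd := def_clo (k := k) hX hB hT hTd hBT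
  have h1 : clo k X A ⊆ clo k X B := clo_subset hcB.closed hd
    (cont_anti (hAB.trans (subset_clo hB.subset)))
  have h2 := vd_mono hX.cone hcA hcB h1
  rw [kdim, kdim, dim_eq, dim_eq]
  omega

theorem clo_eq {A : Set (ι → K)} (hA : Subvariety X A) (hAd : Def k A) : clo k X A = A :=
  Set.Subset.antisymm (clo_subset hA.closed hAd le_rfl) (subset_clo hA.subset)

theorem dim_le_kdim (hX : QuasiProjective X) {A T : Set (ι → K)} (hA : Subvariety X A)
    (hT : Subvariety X T) (hTd : Def k T) (hAT : A ⊆ T) : dim A ≤ kdim k X A := by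
  haveI : Infinite K := IsAlgClosed.instInfinite
  have h1 := vd_mono hX.cone hA (clo_sub (k := k) hX hA hT hTd hAT) (subset_clo hA.subset)
  rw [kdim, dim_eq, dim_eq]
  omega

/-- optimal subvarieties of a variety over `k` are defined over `k` -/
theorem optimal_clo (hX : QuasiProjective X) (h𝒮 : SpecialStructure X 𝒮)
    (hd : ∀ S ∈ 𝒮, Def k S) {V A : Set (ι → K)} (hV : Subvariety X V) (hVd : Def k V)
    (hA : OptimalH X 𝒮 h V A) : clo k X A = A := by
  haveI : Infinite K := IsAlgClosed.instInfinite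
  obtain ⟨hA1, hA2, hA3⟩ := hA
  have h1 := clo_sub (k := k) hX hA1 hV hVd hA2
  have h2 : A ⊆ clo k X A := subset_clo hA1.subset
  by_contra hne
  have h4 := hA3 _ h1 (Set.ssubset_iff_subset_ne.2 ⟨h2, Ne.symm hne⟩)
    (clo_subset hV.closed hVd (cont_anti hA2))
  have h3 := vd_mono hX.cone hA1 h1 h2
  rw [hdefect, hdefect, hull_clo h𝒮 hd hA1, dim_eq, dim_eq] at h4
  omega

theorem optimal_restrict {Y Y' A : Set (ι → K)} (hA : OptimalH X 𝒮 h Y A) (h1 : A ⊆ Y')
    (h2 : Y' ⊆ Y) : OptimalH X 𝒮 h Y' A :=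
  ⟨hA.1, h1, fun B hB hAB hBY => hA.2.2 B hB hAB (hBY.trans h2)⟩

theorem exists_opt (hX : QuasiProjective X) {A V : Set (ι → K)} (hA : Subvariety X A)
    (hAV : A ⊆ V) : ∃ B, OptimalH X 𝒮 h V B ∧ A ⊆ B ∧ hdefect 𝒮 h B ≤ hdefect 𝒮 h A := by
  haveI : Infinite K := IsAlgClosed.instInfinite
  obtain ⟨B, hB, hAB, ⟨hBV, hBd⟩, hmax⟩ := exists_maximal hX.cone
    (fun B => B ⊆ V ∧ hdefect 𝒮 h B ≤ hdefect 𝒮 h A) hA ⟨hAV, le_rfl⟩
  refine ⟨B, ⟨hB, hBV, fun C hC hBC hCV => ?_⟩, hAB, hBd⟩
  by_contra hcon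
  push Not at hcon
  exact hBC.ne (hmax C hC hBC.subset ⟨hCV, hcon.trans hBd⟩).symm

/-- induction over closed subsets for optimal subvarieties -/
theorem optimal_induction (hX : QuasiProjective X) {T : Set (ι → K)}
    (Q : Set (ι → K) → Prop) (d : ℤ)
    (H : ∀ V, Subvariety X V → V ⊆ T → ∃ W, Closed X W ∧ ¬ V ⊆ W ∧
      ∀ A, OptimalH X 𝒮 h V A → Q A → dim V ≤ dim A + d → A ≠ V → A ⊆ W) :
    ∀ V, Subvariety X V → V ⊆ T →
      {A | OptimalH X 𝒮 h V A ∧ Q A ∧ dim V ≤ dim A + d}.Finite := by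
  classical
  haveI : Infinite K := IsAlgClosed.instInfinite
  suffices H' : ∀ n : ℕ, ∀ V, Subvariety X V → V ⊆ T → vd V = n →
      {A | OptimalH X 𝒮 h V A ∧ Q A ∧ dim V ≤ dim A + d}.Finite from
    fun V hV hVT => H' _ V hV hVT rfl
  intro n
  induction n using Nat.strong_induction_on with
  | _ n ih =>
    rintro V hV hVT rfl
    obtain ⟨W, hW, hVW, hWS⟩ := H V hV hVT
    obtain ⟨𝓕, hf, hs, hu⟩ := exists_decomp X (hV.closed.inter hW)
    have hsub : ∀ U ∈ 𝓕, U ⊆ V ∩ W := by
      intro U hU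
      rw [← hu]
      exact Set.subset_sUnion_of_mem hU
    have hlt : ∀ U ∈ 𝓕, vd U < vd V := by
      intro U hU
      refine vd_strict hX.cone (hs U hU) hV ⟨(hsub U hU).trans Set.inter_subset_left,
        fun h2 => hVW ?_⟩
      exact h2.trans ((hsub U hU).trans Set.inter_subset_right)
    have hfin : (⋃ U ∈ 𝓕, {A | OptimalH X 𝒮 h U A ∧ Q A ∧ dim U ≤ dim A + d}).Finite := by
      refine hf.biUnion fun U hU => ?_
      exact ih _ (hlt U hU) U (hs U hU) (((hsub U hU).trans Set.inter_subset_left).trans hVT) rfl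
    refine (hfin.union (Set.finite_singleton V)).subset ?_
    rintro p ⟨hpo, hpQ, hpd⟩
    rcases eq_or_ne p V with rfl | hne
    · exact Or.inr rfl
    left
    have h2 : p ⊆ W := hWS p hpo hpQ hpd hne
    obtain ⟨U, hU, hpU⟩ := hpo.1.mem_of_sUnion hf (fun U hU => (hs U hU).closed)
      (by rw [hu]; exact Set.subset_inter hpo.2.1 h2)
    refine Set.mem_biUnion hU ⟨optimal_restrict hpo hpU ((hsub U hU).trans
      Set.inter_subset_left), hpQ, ?_⟩
    have h3 := hlt U hU
    rw [dim_eq] at hpd ⊢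
    omega

end

end Pool.Agent.R370.TZ
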