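import Pool.Agent.R370.TZ.C

/-!
# Sections over extensions of the field of definition
-/

set_option autoImplicit false
set_option linter.unusedSectionVars false
set_option linter.style.haveILetI false

namespace Pool.Agent.R370.TZ

open MvPolynomial Pool.Agent.R948 Pool.Agent.R948.ZP Pool.Agent.R370.JU Pool.Agent.R370.HS

/-- infinite transcendence degree -/
def Big (k K : Type) [Field k] [Field K] [Algebra k K] : Prop :=
  ∀ m : ℕ, ∃ t : Fin m → K, AlgebraicIndependent k t

theorem big_of_trdeg {k K : Type} [Field k] [Field K] [Algebra k K]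
    (h : Cardinal.aleph0 ≤ Algebra.trdeg k K) : Big k K := by
  intro m
  obtain ⟨s, hs⟩ := exists_isTranscendenceBasis k K
  rw [← hs.cardinalMk_eq_trdeg, Cardinal.aleph0_le_mk_iff] at h
  obtain ⟨e⟩ : Nonempty (ℕ ↪ s) := ⟨Infinite.natEmbedding s⟩
  have hg : Function.Injective fun i : Fin m => e i := fun a b hab =>
    Fin.ext (e.injective hab)
  exact ⟨_, hs.1.comp (fun i : Fin m => e i) hg⟩

theorem big_indep {k K : Type} [Field k] [Field K] [Algebra k K] (h : Big k K) (σ : Type)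
    [Finite σ] : ∃ t : σ → K, AlgebraicIndependent k t := by
  obtain ⟨n, ⟨e⟩⟩ := Finite.exists_equiv_fin σ
  obtain ⟨t, ht⟩ := h n
  exact ⟨_, ht.comp e e.injective⟩

/-- finitely generated extensions of the field of definition -/
theorem exists_ext {k K : Type} [Field k] [Field K] [Algebra k K] [IsAlgClosed K]
    (hbig : Big k K) (C : Set K) (hC : C.Finite) :
    ∃ (k' : Type) (_ : Field k') (_ : Algebra k' K), IsAlgClosed k' ∧ Big k' K ∧
      Set.range (algebraMap k K) ⊆ Set.range (algebraMap k' K) ∧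
      C ⊆ Set.range (algebraMap k' K) := by
  classical
  let F := IntermediateField.adjoin k C
  haveI : Fintype C := hC.fintype
  let b : C → K := Subtype.val
  have hb : Set.range b = C := Subtype.range_coe
  refine ⟨algebraicClosure F K, inferInstance, inferInstance, IsAlgClosure.isAlgClosed F, ?_, ?_,
    ?_⟩
  · intro m
    obtain ⟨t, ht⟩ := hbig (m + Fintype.card C)
    have h1 : td k (Sum.elim t b) ≤ td (algebraicClosure F K) t + td k b := by
      refine td_le_add t b fun a => ?_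
      rw [hb]
      have h2 : IsAlgebraic F (a : K) := by
        have h3 := a.2
        rwa [mem_algebraicClosure_iff] at h3
      have h3 : IsAlgebraic (Algebra.adjoin F (∅ : Set K)) (a : K) :=
        h2.extendScalars (algebraMap F (Algebra.adjoin F (∅ : Set K))).injective
      refine alg_trans (F := F) C (fun c => ?_) ∅ (fun c hc => hc.elim) h3
      have h4 := alg_adjoin (AlgHom.id k K) C c.2
      have h5 : (AlgHom.id k K : K → K) '' C = C := Set.image_id C
      rw [h5] at h4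
      exact h4
    have h2 : td k t ≤ td k (Sum.elim t b) :=
      td_le_of_alg k fun i => alg_of_range (F := k) (Sum.elim t b) (Sum.inl i)
    have h3 := td_le_card k b
    have h4 := card_le_td ht
    rw [Fintype.card_fin] at h4
    obtain ⟨S, hS, hind, -⟩ := exists_td (algebraicClosure F K) t
    have h5 : m ≤ Fintype.card S := by
      rw [Fintype.card_coe]
      omega
    obtain ⟨e⟩ : Nonempty (Fin m ↪ S) := by
      rw [Function.Embedding.nonempty_iff_card_le, Fintype.card_fin]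
      exact h5
    exact ⟨_, hind.comp e e.injective⟩
  · rintro _ ⟨c, rfl⟩
    exact ⟨algebraMap F (algebraicClosure F K) (algebraMap k F c), rfl⟩
  · intro c hc
    have h1 : c ∈ F := IntermediateField.subset_adjoin _ _ hc
    exact ⟨algebraMap F (algebraicClosure F K) ⟨c, h1⟩, rfl⟩

section

variable {k k' K : Type} [Field k] [Field k'] [Field K] [Algebra k K] [Algebra k' K] {ι : Type}
  [Fintype ι]

theorem map_over (hk : Set.range (algebraMap k K) ⊆ Set.range (algebraMap k' K))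
    (g : MvPolynomial ι k) : ∃ g' : MvPolynomial ι k',
      MvPolynomial.map (algebraMap k' K) g' = MvPolynomial.map (algebraMap k K) g := by
  have h1 : MvPolynomial.map (algebraMap k K) g ∈
      Set.range (MvPolynomial.map (σ := ι) (algebraMap k' K)) := by
    rw [mem_range_map_iff_coeffs_subset]
    intro c hc
    rw [Finset.mem_coe, mem_coeffs_iff] at hc
    obtain ⟨m, -, rfl⟩ := hc
    rw [coeff_map]
    exact hk ⟨_, rfl⟩
  exact h1

theorem def_over (hk : Set.range (algebraMap k K) ⊆ Set.range (algebraMap k' K))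
    {A : Set (ι → K)} (hA : Def k A) : Def k' A := by
  refine le_antisymm (map_cont_le A) ?_
  rw [← hA, Ideal.map_le_iff_le_comap]
  intro g hg
  obtain ⟨g', hg'⟩ := map_over (k' := k') hk g
  rw [Ideal.mem_comap, ← hg']
  refine Ideal.mem_map_of_mem _ ?_
  change MvPolynomial.map (algebraMap k' K) g' ∈ van A
  rw [hg']
  exact hg

theorem space_over (hk : Set.range (algebraMap k K) ⊆ Set.range (algebraMap k' K))
    (G : Set (MvPolynomial ι k)) :
    MvPolynomial.map (algebraMap k' K) '' {g | MvPolynomial.map (algebraMap k' K) g ∈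
      MvPolynomial.map (algebraMap k K) '' G} = MvPolynomial.map (algebraMap k K) '' G := by
  ext f
  constructor
  · rintro ⟨g, hg, rfl⟩
    exact hg
  · rintro ⟨g, hg, rfl⟩
    obtain ⟨g', hg'⟩ := map_over (k' := k') hk g
    exact ⟨g', ⟨g, hg, hg'.symm⟩, hg'⟩

end

section

variable {k K : Type} [Field k] [Field K] [Algebra k K] [IsAlgClosed k] [IsAlgClosed K]
  {ι : Type} [Fintype ι] {X : Set (ι → K)} {𝒮 : Set (Set (ι → K))} {h : Set (ι → K) → ℤ}

/-- a field of definition of `V` containing `k` -/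
theorem exists_adapted_over (hbig : Big k K)
    (hsp : ∃ (F : Set (MvPolynomial ι K)) (G : Set (MvPolynomial ι k)),
      X = zeros F \ zeros (MvPolynomial.map (algebraMap k K) '' G))
    (hd : ∀ S ∈ 𝒮, Def k S) (V : Set (ι → K)) :
    ∃ (k' : Type) (_ : Field k') (_ : Algebra k' K), IsAlgClosed k' ∧ Big k' K ∧
      Set.range (algebraMap k K) ⊆ Set.range (algebraMap k' K) ∧ Adapted k' X 𝒮 V := by
  obtain ⟨C, hC, hC2⟩ := exists_coeffs (van V)
  obtain ⟨k', _, _, h1, h2, h3, h4⟩ := exists_ext (k := k) hbig C hC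
  obtain ⟨F, G, hFG⟩ := hsp
  exact ⟨k', inferInstance, inferInstance, h1, h2, h3,
    ⟨⟨F, _, by rw [space_over h3]; exact hFG⟩, fun S hS => def_over h3 (hd S hS), hC2 k' h4⟩⟩

/-- one hyperplane section -/
theorem section_over (hX : QuasiProjective X) (h𝒮 : SpecialStructure X 𝒮) (hbig : Big k K)
    (hsp : ∃ (F : Set (MvPolynomial ι K)) (G : Set (MvPolynomial ι k)),
      X = zeros F \ zeros (MvPolynomial.map (algebraMap k K) '' G))
    (hd : ∀ S ∈ 𝒮, Def k S) (n : ℤ) {T V : Set (ι → K)} (hT : T ∈ 𝒮) (hV : Subvariety X V)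
    (hVT : V ⊆ T) (d : ℤ) (hd0 : 0 ≤ d)
    (hinf : {A | OptimalH X 𝒮 h V A ∧ dim A = d + 1 ∧ n ≤ kdim k X A}.Infinite) :
    ∃ V', Subvariety X V' ∧ V' ⊆ T ∧ dim V' + 1 = dim V ∧
      {A | OptimalH X 𝒮 h V' A ∧ dim A = d ∧ n ≤ kdim k X A}.Infinite := by
  classical
  haveI : Infinite K := IsAlgClosed.instInfinite
  obtain ⟨k', _, _, hkc', hbig', hkk', hk'⟩ := exists_adapted_over (X := X) (𝒮 := 𝒮) hbig hsp hd V
  obtain ⟨u, hu⟩ := big_indep hbig' ι
  have hTs := h𝒮.subvariety _ hT
  have hYc : Closed X (V ∩ (X ∩ hyp u)) := hV.closed.inter (closed_hyp' hX.cone u)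
  let 𝓐 := {A | OptimalH X 𝒮 h V A ∧ dim A = d + 1 ∧ n ≤ kdim k X A}
  have hdefA : ∀ A : 𝓐, Def k' A.1 := by
    intro A
    have h1 := def_clo (k := k') hX A.2.1.1 hV hk'.var A.2.1.2.1
    rwa [optimalH_clo hX h𝒮 hV hk' hu A.2.1] at h1
  have hA1 : ∀ A : 𝓐, ∃ B, IsComponent X B (A.1 ∩ (X ∩ hyp u)) := by
    intro A
    refine exists_comp hX h𝒮 hV hk' hu A.2.1.1 A.2.1.2.1 (hdefA A) ?_
    have h1 := A.2.2.1
    rw [dim_eq] at h1
    change 2 ≤ vd A.1
    omega
  choose g hg using hA1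
  have hgopt : ∀ A, OptimalH X 𝒮 h (V ∩ (X ∩ hyp u)) (g A) := fun A =>
    optimalH_section hX h𝒮 hV hk' hu A.2.1 (hg A)
  have hfacts : ∀ A : 𝓐, vd (g A) + 1 = vd A.1 ∧
      clo k' X (g A) = A.1 ∧ hull 𝒮 (g A) = hull 𝒮 A.1 := fun A =>
    comp_facts hX h𝒮 hV hk' hu A.2.1.1 A.2.1.2.1 (hdefA A) (hg A)
  have hginj : Function.Injective g := by
    intro A A' hAA'
    apply Subtype.ext
    rw [← (hfacts A).2.1, ← (hfacts A').2.1, hAA']
  have hgT : ∀ A, g A ⊆ T := fun A =>
    ((hgopt A).2.1.trans Set.inter_subset_left).trans hVT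
  have hkd : ∀ A : 𝓐, n ≤ kdim k X (g A) := by
    intro A
    refine A.2.2.2.trans ?_
    have hcs := clo_sub (k := k) hX (hgopt A).1 hTs (hd T hT) (hgT A)
    have hcd := def_clo (k := k) hX (hgopt A).1 hTs (hd T hT) (hgT A)
    have h1 : A.1 ⊆ clo k X (g A) := by
      rw [← (hfacts A).2.1]
      exact clo_subset hcs.closed (def_over hkk' hcd) (cont_anti (subset_clo (hgopt A).1.subset))
    have h2 : clo k X A.1 ⊆ clo k X (g A) := clo_subset hcs.closed hcd (cont_anti h1)
    have h3 := vd_mono hX.cone (clo_sub (k := k) hX A.2.1.1 hTs (hd T hT)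
      (A.2.1.2.1.trans hVT)) hcs h2
    rw [kdim, kdim, dim_eq, dim_eq]
    omega
  have hcov : ∀ A, ∃ V' ∈ {C | IsComponent X C (V ∩ (X ∩ hyp u))}, g A ⊆ V' := by
    intro A
    obtain ⟨V', hV', hgV'⟩ := exists_component hX.cone (hgopt A).1 (hgopt A).2.1
    exact ⟨V', hV', hgV'⟩
  have hone : ∃ V' ∈ {C | IsComponent X C (V ∩ (X ∩ hyp u))}, {A | g A ⊆ V'}.Infinite := by
    by_contra hcon
    push Not at hcon
    have h1 : (⋃ V' ∈ {C | IsComponent X C (V ∩ (X ∩ hyp u))}, {A | g A ⊆ V'}).Finite :=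
      (components_finite hYc).biUnion fun W hW => hcon W hW
    haveI : Infinite 𝓐 := Set.infinite_coe_iff.2 hinf
    refine Set.infinite_univ (α := 𝓐) (h1.subset fun A _ => ?_)
    obtain ⟨W, hW, hpW⟩ := hcov A
    exact Set.mem_biUnion hW hpW
  obtain ⟨V', hV', hinf'⟩ := hone
  obtain ⟨hc1, -, -⟩ := comp_facts hX h𝒮 hV hk' hu hV le_rfl hk'.var hV'
  refine ⟨V', hV'.1, (hV'.2.1.trans Set.inter_subset_left).trans hVT,
    by rw [dim_eq, dim_eq]; omega, ?_⟩
  refine (hinf'.image (hginj.injOn)).mono ?_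
  rintro _ ⟨A, hA, rfl⟩
  refine ⟨optimal_restrict (hgopt A) hA hV'.2.1, ?_, hkd A⟩
  have h1 := (hfacts A).1
  have h2 := A.2.2.1
  rw [dim_eq] at h2 ⊢
  omega

end

end Pool.Agent.R370.TZ
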