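import Pool.Agent.R370.TZ.D

/-!
# The Zilber–Pink conjecture by transcendence degree
-/

set_option autoImplicit false
set_option linter.unusedSectionVars false
set_option linter.style.haveILetI false

namespace Pool.Agent.R370.TZ

open MvPolynomial Pool.Agent.R948 Pool.Agent.R948.ZP Pool.Agent.R370.JU Pool.Agent.R370.HS

section Definitions

/-- The quasi-projective variety `X` and its special subvarieties are defined over `k`. -/
structure DefinedOver (k : Type) [Field k] {K : Type} [Field K] [Algebra k K] {ι : Type}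
    [Fintype ι] (X : Set (ι → K)) (𝒮 : Set (Set (ι → K))) : Prop where
  space : ∃ F G : Set (MvPolynomial ι k), X = zeros (MvPolynomial.map (algebraMap k K) '' F) \
    zeros (MvPolynomial.map (algebraMap k K) '' G)
  special : ∀ S ∈ 𝒮, Def k S

variable (k : Type) [Field k] {K : Type} [Field K] [Algebra k K] {ι : Type} [Fintype ι]
  (X : Set (ι → K)) (𝒮 : Set (Set (ι → K))) (h : Set (ι → K) → ℤ) (n d : ℤ)

/-- For every subvariety `V` over `K` of dimension at most `d` the points of `V` of defect smaller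
than the defect of `V` and of transcendence degree at least `n` over `k` are not Zariski dense in
`V`. -/
def PointsNotDenseK : Prop :=
  ∀ T ∈ 𝒮, ∀ V, Subvariety X V → V ⊆ T → dim V ≤ d → ∃ W, Closed X W ∧ ¬ V ⊆ W ∧
    ∀ x ∈ V, hdefect 𝒮 h (line x) < hdefect 𝒮 h V → n ≤ kdim k X (line x) → x ∈ W

/-- Every subvariety over `K` of dimension at most `d` has only finitely many optimal points of
transcendence degree at least `n` over `k`. -/
def OptimalPointsFiniteK : Prop :=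
  ∀ T ∈ 𝒮, ∀ V, Subvariety X V → V ⊆ T → dim V ≤ d →
    {A | OptimalH X 𝒮 h V A ∧ dim A = 0 ∧ n ≤ kdim k X A}.Finite

/-- For every subvariety `V` over `K` the union of the subvarieties of `V` of codimension at most
`d`, of defect smaller than the defect of `V` and of dimension over `k` at least `n` is not Zariski
dense in `V`. -/
def AtypicalNotDenseK : Prop :=
  ∀ T ∈ 𝒮, ∀ V, Subvariety X V → V ⊆ T → ∃ W, Closed X W ∧ ¬ V ⊆ W ∧
    ∀ A, Subvariety X A → A ⊆ V → hdefect 𝒮 h A < hdefect 𝒮 h V → n ≤ kdim k X A →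
      dim V ≤ dim A + d → A ⊆ W

/-- Every subvariety over `K` has only finitely many optimal subvarieties of codimension at most `d`
and of dimension over `k` at least `n`. -/
def OptimalFiniteK : Prop :=
  ∀ T ∈ 𝒮, ∀ V, Subvariety X V → V ⊆ T →
    {A | OptimalH X 𝒮 h V A ∧ n ≤ kdim k X A ∧ dim V ≤ dim A + d}.Finite

/-- Every subvariety defined over `k` has only finitely many optimal subvarieties of codimension at
most `d` and of dimension at least `n`. -/
def OptimalFinite : Prop :=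
  ∀ T ∈ 𝒮, ∀ V, Subvariety X V → V ⊆ T → Def k V →
    {A | OptimalH X 𝒮 h V A ∧ n ≤ dim A ∧ dim V ≤ dim A + d}.Finite

/-- For every subvariety `V` defined over `k` the union of the subvarieties of `V` which are defined
over `k`, of codimension at most `d`, of defect smaller than the defect of `V` and of dimension at
least `n` is not Zariski dense in `V`. -/
def AtypicalNotDense : Prop :=
  ∀ T ∈ 𝒮, ∀ V, Subvariety X V → V ⊆ T → Def k V → ∃ W, Closed X W ∧ ¬ V ⊆ W ∧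
    ∀ A, Subvariety X A → A ⊆ V → Def k A → hdefect 𝒮 h A < hdefect 𝒮 h V → n ≤ dim A →
      dim V ≤ dim A + d → A ⊆ W

end Definitions

section

variable {k K : Type} [Field k] [Field K] [Algebra k K] [IsAlgClosed k] [IsAlgClosed K]
  {ι : Type} [Fintype ι] {X : Set (ι → K)} {𝒮 : Set (Set (ι → K))} {h : Set (ι → K) → ℤ} {n d : ℤ}

/-- **From `k` to `K`, one variety.** -/
theorem main_step (hX : QuasiProjective X) (h𝒮 : SpecialStructure X 𝒮) (hd : ∀ S ∈ 𝒮, Def k S)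
    {T V : Set (ι → K)} (hT : T ∈ 𝒮) (hV : Subvariety X V) (hVT : V ⊆ T)
    (H : ∃ W, Closed X W ∧ ¬ clo k X V ⊆ W ∧ ∀ A, Subvariety X A → A ⊆ clo k X V → Def k A →
      hdefect 𝒮 h A < hdefect 𝒮 h (clo k X V) → n ≤ dim A → dim (clo k X V) ≤ dim A + d →
        dim (clo k X V) - dim V ≤ dim A → A ⊆ W) :
    ∃ W, Closed X W ∧ ¬ V ⊆ W ∧ ∀ A, Subvariety X A → A ⊆ V →
      hdefect 𝒮 h A < hdefect 𝒮 h V → n ≤ kdim k X A → dim V ≤ dim A + d → A ⊆ W := by
  haveI : Infinite K := IsAlgClosed.instInfinite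
  have hTs := h𝒮.subvariety _ hT
  obtain ⟨W₀, hW₀, hVW₀, hW₀A⟩ := H
  obtain ⟨D, hD, hVD, hDA⟩ := exists_jump (k := k) hX hV hTs (hd T hT) hVT
  obtain ⟨W, hW, hVW, hWA⟩ := exists_cover (k := k) hX hV hTs (hd T hT) hVT hW₀ hVW₀
  refine ⟨D ∪ W, hD.union hW, fun h1 => ?_, fun A hA hAV hAd hAn hAcd => ?_⟩
  · exact (hV.irreducible _ _ hD hW h1).elim hVD hVW
  · by_cases hAD : A ⊆ D
    · exact hAD.trans Set.subset_union_left
    · refine (hWA A hA (hAV.trans hVT) ?_).trans Set.subset_union_right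
      have h1 := hDA A hA hAV hAD
      have h2 : 1 ≤ vd A := by
        obtain ⟨x, hx⟩ := hA.nonempty
        have h1 := vd_mono hX.cone (line_sub hX.cone hX.zero (hA.subset hx)) hA
          (line_subset hA.closed.1 hx)
        rwa [vd_line hX.cone hX.zero (hA.subset hx)] at h1
      have hc := clo_sub (k := k) hX hV hTs (hd T hT) hVT
      have hcd := def_clo (k := k) hX hV hTs (hd T hT) hVT
      refine hW₀A _ (clo_sub (k := k) hX hA hTs (hd T hT) (hAV.trans hVT))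
        (clo_subset hc.closed hcd (cont_anti (hAV.trans (subset_clo hV.subset))))
        (def_clo (k := k) hX hA hTs (hd T hT) (hAV.trans hVT)) ?_ hAn ?_ ?_
      · rw [hdefect, hdefect, hull_clo h𝒮 hd hA, hull_clo h𝒮 hd hV, dim_eq, dim_eq]
        rw [hdefect, hdefect, dim_eq, dim_eq] at hAd
        omega
      · rw [dim_eq, dim_eq] at hAcd ⊢
        omega
      · rw [dim_eq, dim_eq, dim_eq]
        omega

theorem six_four (hX : QuasiProjective X) (h𝒮 : SpecialStructure X 𝒮) (hd : ∀ S ∈ 𝒮, Def k S)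
    (h6 : AtypicalNotDense k X 𝒮 h n d) : OptimalFiniteK k X 𝒮 h n d := by
  intro T hT V hV hVT
  refine optimal_induction hX (fun A => n ≤ kdim k X A) d (fun V hV hVT => ?_) V hV hVT
  have hTs := h𝒮.subvariety _ hT
  have hc := clo_sub (k := k) hX hV hTs (hd T hT) hVT
  have hcT : clo k X V ⊆ T := clo_subset hTs.closed (hd T hT) (cont_anti hVT)
  have hcd := def_clo (k := k) hX hV hTs (hd T hT) hVT
  obtain ⟨W₀, hW₀, hVW₀, hW₀A⟩ := h6 T hT _ hc hcT hcd
  obtain ⟨W, hW, hVW, hWA⟩ := main_step (n := n) (d := d) (h := h) hX h𝒮 hd hT hV hVT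
    ⟨W₀, hW₀, hVW₀, fun A h1 h2 h3 h4 h5 h6 _ => hW₀A A h1 h2 h3 h4 h5 h6⟩
  exact ⟨W, hW, hVW, fun A hA hAn hAd hne => hWA A hA.1 hA.2.1
    (hA.2.2 V hV (Set.ssubset_iff_subset_ne.2 ⟨hA.2.1, hne⟩) le_rfl) hAn hAd⟩

theorem four_three (hX : QuasiProjective X) (h𝒮 : SpecialStructure X 𝒮) (hd : ∀ S ∈ 𝒮, Def k S)
    (h4 : OptimalFiniteK k X 𝒮 h n d) : AtypicalNotDenseK k X 𝒮 h n d := by
  haveI : Infinite K := IsAlgClosed.instInfinite
  intro T hT V hV hVT
  have hTs := h𝒮.subvariety _ hT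
  have hfin : ({B | OptimalH X 𝒮 h V B ∧ n ≤ kdim k X B ∧ dim V ≤ dim B + d} ∩
      {B | hdefect 𝒮 h B < hdefect 𝒮 h V}).Finite := (h4 T hT V hV hVT).inter_of_left _
  have hcl : ∀ B ∈ {B | OptimalH X 𝒮 h V B ∧ n ≤ kdim k X B ∧ dim V ≤ dim B + d} ∩
      {B | hdefect 𝒮 h B < hdefect 𝒮 h V}, Closed X B := fun B hB => hB.1.1.1.closed
  refine ⟨_, closed_sUnion hfin hcl, fun hsub => ?_, fun A hA hAV hAd hAn hAcd => ?_⟩
  · obtain ⟨B, hB, hVB⟩ := hV.mem_of_sUnion hfin hcl hsub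
    have h1 : B = V := Set.Subset.antisymm hB.1.1.2.1 hVB
    have h2 : hdefect 𝒮 h B < hdefect 𝒮 h V := hB.2
    rw [h1] at h2
    exact lt_irrefl _ h2
  · obtain ⟨B, hB, hAB, hBd⟩ := exists_opt (𝒮 := 𝒮) (h := h) hX hA hAV
    refine hAB.trans (Set.subset_sUnion_of_mem ⟨⟨hB, hAn.trans ?_, ?_⟩, hBd.trans_lt hAd⟩)
    · exact kdim_mono hX hA hB.1 hTs (hd T hT) (hB.2.1.trans hVT) hAB
    · have h1 := vd_mono hX.cone hA hB.1 hAB
      rw [dim_eq A] at hAcd
      rw [dim_eq B]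
      omega

theorem dim_line (hX : QuasiProjective X) {x : ι → K} (hx : x ∈ X) : dim (line x) = 0 := by
  haveI : Infinite K := IsAlgClosed.instInfinite
  rw [dim_eq, vd_line hX.cone hX.zero hx]
  norm_num

theorem three_one (hX : QuasiProjective X) (h3 : AtypicalNotDenseK k X 𝒮 h n d) :
    PointsNotDenseK k X 𝒮 h n d := by
  haveI : Infinite K := IsAlgClosed.instInfinite
  intro T hT V hV hVT hVd
  obtain ⟨W, hW, hVW, hWA⟩ := h3 T hT V hV hVT
  refine ⟨W, hW, hVW, fun x hx hxd hxn => ?_⟩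
  refine hWA (line x) (line_sub hX.cone hX.zero (hV.subset hx)) (line_subset hV.closed.1 hx) hxd
    hxn ?_ (mem_line x)
  rw [dim_line hX (hV.subset hx)]
  omega

theorem eq_line (hX : QuasiProjective X) {A : Set (ι → K)} (hA : Subvariety X A)
    (hA0 : dim A = 0) : ∃ x ∈ A, A = line x := by
  haveI : Infinite K := IsAlgClosed.instInfinite
  obtain ⟨x, hx⟩ := hA.nonempty
  refine ⟨x, hx, (eq_of_vd hX.cone (line_sub hX.cone hX.zero (hA.subset hx)) hA
    (line_subset hA.closed.1 hx) ?_).symm⟩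
  rw [vd_line hX.cone hX.zero (hA.subset hx)]
  rw [dim_eq] at hA0
  omega

/-- induction for points -/
theorem one_two (hX : QuasiProjective X) (h1 : PointsNotDenseK k X 𝒮 h n d) :
    OptimalPointsFiniteK k X 𝒮 h n d := by
  classical
  haveI : Infinite K := IsAlgClosed.instInfinite
  intro T hT V hV hVT hVd
  have h2 := optimal_induction (𝒮 := 𝒮) (h := h) hX (T := T)
    (fun A => dim A = 0 ∧ n ≤ kdim k X A) d (fun V hV hVT => ?_) V hV hVT
  · refine h2.subset ?_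
    rintro A ⟨hA, hA0, hAn⟩
    exact ⟨hA, ⟨hA0, hAn⟩, by omega⟩
  · by_cases hVd : dim V ≤ d
    · obtain ⟨W, hW, hVW, hWx⟩ := h1 T hT V hV hVT hVd
      refine ⟨W, hW, hVW, fun A hA hAQ _ hne => ?_⟩
      have h2 := hA.2.2 V hV (Set.ssubset_iff_subset_ne.2 ⟨hA.2.1, hne⟩) le_rfl
      obtain ⟨x, hx, rfl⟩ := eq_line hX hA.1 hAQ.1
      have h3 := hWx x (hA.2.1 hx) h2 hAQ.2
      exact line_subset hW.1 h3
    · refine ⟨∅, closed_empty X, fun h3 => ?_, fun A hA hAQ hAd _ => ?_⟩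
      · obtain ⟨x, hx⟩ := hV.nonempty
        exact (h3 hx).elim
      · exfalso
        have h3 := hAQ.1
        omega

theorem two_four (hX : QuasiProjective X) (h𝒮 : SpecialStructure X 𝒮) (hk : DefinedOver k X 𝒮)
    (hbig : Big k K) (h2 : OptimalPointsFiniteK k X 𝒮 h n d) : OptimalFiniteK k X 𝒮 h n d := by
  haveI : Infinite K := IsAlgClosed.instInfinite
  have hsp : ∃ (F : Set (MvPolynomial ι K)) (G : Set (MvPolynomial ι k)),
      X = zeros F \ zeros (MvPolynomial.map (algebraMap k K) '' G) := by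
    obtain ⟨F, G, hFG⟩ := hk.space
    exact ⟨_, G, hFG⟩
  have key : ∀ a : ℕ, ∀ T ∈ 𝒮, ∀ V, Subvariety X V → V ⊆ T → dim V ≤ a + d →
      {A | OptimalH X 𝒮 h V A ∧ dim A = (a : ℤ) ∧ n ≤ kdim k X A}.Finite := by
    intro a
    induction a with
    | zero =>
      intro T hT V hV hVT hVd
      exact h2 T hT V hV hVT (by simpa using hVd)
    | succ a ih =>
      intro T hT V hV hVT hVd
      by_contra hinf
      push_cast at hinf hVd
      obtain ⟨V', hV', hV'T, hVd', hinf'⟩ := section_over hX h𝒮 hbig hsp hk.special n hT hV hVT a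
        (Int.natCast_nonneg a) hinf
      exact hinf' (ih T hT V' hV' hV'T (by omega))
  intro T hT V hV hVT
  have h1 : {A | OptimalH X 𝒮 h V A ∧ n ≤ kdim k X A ∧ dim V ≤ dim A + d} ⊆
      ⋃ a ∈ {a : ℕ | a < vd V ∧ dim V ≤ a + d},
      {A | OptimalH X 𝒮 h V A ∧ dim A = (a : ℤ) ∧ n ≤ kdim k X A} := by
    rintro A ⟨hA, hAn, hAd⟩
    have h3 := vd_mono hX.cone hA.1 hV hA.2.1
    have h4 : 1 ≤ vd A := by
      obtain ⟨x, hx⟩ := hA.1.nonempty
      have h1 := vd_mono hX.cone (line_sub hX.cone hX.zero (hA.1.subset hx)) hA.1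
        (line_subset hA.1.closed.1 hx)
      rwa [vd_line hX.cone hX.zero (hA.1.subset hx)] at h1
    have h5 : dim A = ((vd A - 1 : ℕ) : ℤ) := by
      rw [dim_eq]
      omega
    refine Set.mem_biUnion (x := vd A - 1) ⟨?_, ?_⟩ ⟨hA, h5, hAn⟩
    · omega
    · rw [← h5]
      exact hAd
  refine (Set.Finite.biUnion ?_ fun a ha => key a T hT V hV hVT ha.2).subset h1
  exact (Set.finite_Iio (vd V)).subset fun a ha => ha.1

theorem four_five (hX : QuasiProjective X) (h𝒮 : SpecialStructure X 𝒮) (hd : ∀ S ∈ 𝒮, Def k S)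
    (h4 : OptimalFiniteK k X 𝒮 h n d) : OptimalFinite k X 𝒮 h n d := by
  intro T hT V hV hVT hVd
  refine (h4 T hT V hV hVT).subset ?_
  rintro A ⟨hA, hAn, hAd⟩
  refine ⟨hA, ?_, hAd⟩
  rw [kdim, optimal_clo hX h𝒮 hd hV hVd hA]
  exact hAn

theorem five_six (hX : QuasiProjective X) (h5 : OptimalFinite k X 𝒮 h n d) :
    AtypicalNotDense k X 𝒮 h n d := by
  haveI : Infinite K := IsAlgClosed.instInfinite
  intro T hT V hV hVT hVd
  have hfin : ({B | OptimalH X 𝒮 h V B ∧ n ≤ dim B ∧ dim V ≤ dim B + d} ∩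
      {B | hdefect 𝒮 h B < hdefect 𝒮 h V}).Finite := (h5 T hT V hV hVT hVd).inter_of_left _
  have hcl : ∀ B ∈ {B | OptimalH X 𝒮 h V B ∧ n ≤ dim B ∧ dim V ≤ dim B + d} ∩
      {B | hdefect 𝒮 h B < hdefect 𝒮 h V}, Closed X B := fun B hB => hB.1.1.1.closed
  refine ⟨_, closed_sUnion hfin hcl, fun hsub => ?_, fun A hA hAV _ hAd hAn hAcd => ?_⟩
  · obtain ⟨B, hB, hVB⟩ := hV.mem_of_sUnion hfin hcl hsub
    have h1 : B = V := Set.Subset.antisymm hB.1.1.2.1 hVB
    have h2 : hdefect 𝒮 h B < hdefect 𝒮 h V := hB.2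
    rw [h1] at h2
    exact lt_irrefl _ h2
  · obtain ⟨B, hB, hAB, hBd⟩ := exists_opt (𝒮 := 𝒮) (h := h) hX hA hAV
    have h1 := vd_mono hX.cone hA hB.1 hAB
    refine hAB.trans (Set.subset_sUnion_of_mem ⟨⟨hB, hAn.trans ?_, ?_⟩, hBd.trans_lt hAd⟩)
    · rw [dim_eq, dim_eq]
      omega
    · rw [dim_eq A] at hAcd
      rw [dim_eq B]
      omega

/-- **The equivalences.** -/
theorem by_degree (hX : QuasiProjective X) (h𝒮 : SpecialStructure X 𝒮) (hk : DefinedOver k X 𝒮)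
    (h : Set (ι → K) → ℤ) (n d : ℤ) :
    List.TFAE [AtypicalNotDense k X 𝒮 h n d, OptimalFinite k X 𝒮 h n d,
      OptimalFiniteK k X 𝒮 h n d, AtypicalNotDenseK k X 𝒮 h n d] := by
  tfae_have 1 → 3 := six_four hX h𝒮 hk.special
  tfae_have 3 → 2 := four_five hX h𝒮 hk.special
  tfae_have 2 → 1 := five_six hX
  tfae_have 3 → 4 := four_three hX h𝒮 hk.special
  tfae_have 4 → 3 := by
    intro h3 T hT V hV hVT
    refine optimal_induction hX (fun A => n ≤ kdim k X A) d (fun V hV hVT => ?_) V hV hVT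
    obtain ⟨W, hW, hVW, hWA⟩ := h3 T hT V hV hVT
    exact ⟨W, hW, hVW, fun A hA hAn hAd hne => hWA A hA.1 hA.2.1
      (hA.2.2 V hV (Set.ssubset_iff_subset_ne.2 ⟨hA.2.1, hne⟩) le_rfl) hAn hAd⟩
  tfae_finish

theorem by_degree_points (hX : QuasiProjective X) (h𝒮 : SpecialStructure X 𝒮)
    (hk : DefinedOver k X 𝒮) (hbig : Cardinal.aleph0 ≤ Algebra.trdeg k K)
    (h : Set (ι → K) → ℤ) (n d : ℤ) :
    List.TFAE [AtypicalNotDense k X 𝒮 h n d, OptimalFinite k X 𝒮 h n d,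
      OptimalFiniteK k X 𝒮 h n d, AtypicalNotDenseK k X 𝒮 h n d, PointsNotDenseK k X 𝒮 h n d,
      OptimalPointsFiniteK k X 𝒮 h n d] := by
  have h0 := by_degree hX h𝒮 hk h n d
  tfae_have 1 ↔ 2 := h0.out 0 1
  tfae_have 2 ↔ 3 := h0.out 1 2
  tfae_have 3 ↔ 4 := h0.out 2 3
  tfae_have 4 → 5 := three_one hX
  tfae_have 5 → 6 := one_two hX
  tfae_have 6 → 3 := two_four hX h𝒮 hk (big_of_trdeg hbig)
  tfae_finish

end

end Pool.Agent.R370.TZ
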