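import Pool.Agent.R370.TZ.P

/-!
# Return sets of transcendental points under endomorphisms
-/

set_option autoImplicit false
set_option linter.unusedSectionVars false
set_option linter.style.haveILetI false

namespace Pool.Agent.R370.TZ

open MvPolynomial Pool.Agent.R948 Pool.Agent.R948.ZP Pool.Agent.R370.JU Pool.Agent.R370.HS

section Definitions

/-- `Φ` is a morphism from `X` to `X` defined over `k`: every point of `X` has a neighbourhood on which
`Φ` is given by homogeneous polynomials of the same degree with coefficients in `k`. -/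
def RegularOver (k : Type) [Field k] {K : Type} [Field K] [Algebra k K] {ι : Type} [Fintype ι]
    (X : Set (ι → K)) (Φ : (ι → K) → (ι → K)) : Prop :=
  ∀ x ∈ X, Φ x ∈ X ∧ ∃ (n : ℕ) (f : ι → MvPolynomial ι k), (∀ i, (f i).IsHomogeneous n) ∧
    (∃ i, aeval x (f i) ≠ 0) ∧
    ∀ y ∈ X, (∃ i, aeval y (f i) ≠ 0) → Φ y ∈ line fun i => aeval y (f i)

/-- A finite union of arithmetic progressions (with common difference zero allowed). -/
def IsUnionOfProgressions (R : Set ℕ) : Prop :=
  ∃ F : Finset (ℕ × ℕ), R = {n | ∃ p ∈ F, ∃ j : ℕ, n = p.1 + p.2 * j}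

end Definitions

theorem union_of_finite {R : Set ℕ} (hR : R.Finite) : IsUnionOfProgressions R := by
  classical
  refine ⟨hR.toFinset.image fun a => (a, 0), ?_⟩
  ext n
  constructor
  · intro hn
    exact ⟨(n, 0), Finset.mem_image.2 ⟨n, hR.mem_toFinset.2 hn, rfl⟩, 0, rfl⟩
  · rintro ⟨p, hp, j, hj⟩
    obtain ⟨a, ha, rfl⟩ := Finset.mem_image.1 hp
    rw [hR.mem_toFinset] at ha
    simp only [zero_mul, add_zero] at hj
    rw [hj]
    exact ha

theorem union_of_periodic {R : Set ℕ} {m p : ℕ} (hp : 0 < p)
    (h : ∀ i, m + i ∈ R ↔ m + p + i ∈ R) : IsUnionOfProgressions R := by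
  classical
  have h1 : ∀ j i, m + i ∈ R ↔ m + i + p * j ∈ R := by
    intro j
    induction j with
    | zero => intro i; rw [mul_zero, add_zero]
    | succ j ih =>
      intro i
      rw [ih, show m + i + p * j = m + (i + p * j) by ring, h,
        show m + p + (i + p * j) = m + i + p * (j + 1) by ring]
  refine ⟨((Finset.range m).filter (· ∈ R)).image (fun a => (a, 0)) ∪
    ((Finset.range p).filter fun i => m + i ∈ R).image (fun i => (m + i, p)), ?_⟩
  ext n
  constructor
  · intro hn
    by_cases hnm : n < m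
    · exact ⟨(n, 0), Finset.mem_union_left _ (Finset.mem_image.2
        ⟨n, Finset.mem_filter.2 ⟨Finset.mem_range.2 hnm, hn⟩, rfl⟩), 0, rfl⟩
    · obtain ⟨i, rfl⟩ := Nat.exists_eq_add_of_le (not_lt.1 hnm)
      have h2 : m + i = m + i % p + p * (i / p) := by
        have := Nat.mod_add_div i p
        omega
      refine ⟨(m + i % p, p), Finset.mem_union_right _ (Finset.mem_image.2
        ⟨i % p, Finset.mem_filter.2 ⟨Finset.mem_range.2 (Nat.mod_lt _ hp), ?_⟩, rfl⟩), i / p, h2⟩
      rw [h2] at hn
      exact (h1 _ _).2 hn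
  · rintro ⟨q, hq, j, hj⟩
    rcases Finset.mem_union.1 hq with hq | hq
    · obtain ⟨a, ha, rfl⟩ := Finset.mem_image.1 hq
      simp only [zero_mul, add_zero] at hj
      rw [hj]
      exact (Finset.mem_filter.1 ha).2
    · obtain ⟨i, hi, rfl⟩ := Finset.mem_image.1 hq
      simp only at hj
      rw [hj]
      exact (h1 _ _).1 (Finset.mem_filter.1 hi).2

section

variable {k K : Type} [Field k] [Field K] [Algebra k K] {ι : Type} [Fintype ι] {X : Set (ι → K)}

theorem aeval_eq_eval (x : ι → K) (g : MvPolynomial ι k) :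
    aeval x g = eval x (MvPolynomial.map (algebraMap k K) g) := (eval_map_eq x g).symm

/-- polynomials vanishing on the line of a point -/
theorem mem_cont_line [Infinite K] {x : ι → K} {g : MvPolynomial ι k} :
    g ∈ cont k (line x) ↔ ∀ n, aeval x (homogeneousComponent n g) = 0 := by
  constructor
  · intro hg n
    have h1 := van_comp (line_cone x) (Ideal.mem_comap.1 hg) n x (mem_line x)
    rwa [map_homComp, eval_map_eq] at h1
  · rintro h _ ⟨c, hc, rfl⟩
    rw [← sum_homogeneousComponent (MvPolynomial.map (algebraMap k K) g), map_sum]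
    refine Finset.sum_eq_zero fun d _ => ?_
    rw [eval_smul_of_hom (homogeneousComponent_isHomogeneous d _), map_homComp, eval_map_eq, h d,
      mul_zero]

/-- homogeneous polynomials vanishing on the line of a point -/
theorem mem_cont_line_hom [Infinite K] {x : ι → K} {g : MvPolynomial ι k} {n : ℕ}
    (hg : g.IsHomogeneous n) : g ∈ cont k (line x) ↔ aeval x g = 0 := by
  constructor
  · intro h
    have h1 : eval x (MvPolynomial.map (algebraMap k K) g) = 0 := h x (mem_line x)
    rwa [eval_map_eq] at h1
  · rintro h _ ⟨c, hc, rfl⟩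
    rw [eval_smul_of_hom (hg.map _), eval_map_eq, h, mul_zero]

theorem line_eq {x z : ι → K} (h : x ∈ line z) : line x = line z := by
  obtain ⟨c, hc, rfl⟩ := h
  ext y
  constructor
  · rintro ⟨a, ha, rfl⟩
    exact ⟨a * c, mul_ne_zero ha hc, smul_smul a c z⟩
  · rintro ⟨a, ha, rfl⟩
    refine ⟨a * c⁻¹, mul_ne_zero ha (inv_ne_zero hc), ?_⟩
    rw [smul_smul, mul_assoc, inv_mul_cancel₀ hc, mul_one]

theorem cont_step' [Infinite K] {n : ℕ} {f : ι → MvPolynomial ι k}
    (hf : ∀ i, (f i).IsHomogeneous n) (x : ι → K) (g : MvPolynomial ι k) :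
    g ∈ cont k (line fun i => aeval x (f i)) ↔
      ∀ m, aeval f (homogeneousComponent m g) ∈ cont k (line x) := by
  rw [mem_cont_line]
  refine forall_congr' fun m => ?_
  have h1 : (aeval f (homogeneousComponent m g)).IsHomogeneous (n * m) :=
    (homogeneousComponent_isHomogeneous m g).aeval f hf
  rw [mem_cont_line_hom h1]
  have h2 : aeval x (aeval f (homogeneousComponent m g)) =
      aeval (fun i => aeval x (f i)) (homogeneousComponent m g) := by
    rw [← MvPolynomial.bind₁, aeval_bind₁]
  rw [h2]

/-- the ideal of the image of a point depends only on the ideal of the point -/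
theorem cont_step [Infinite K] {Φ : (ι → K) → (ι → K)} (hΦ : RegularOver k X Φ) {x y : ι → K}
    (hx : x ∈ X) (hy : y ∈ X) (h : cont k (line x) = cont k (line y)) :
    cont k (line (Φ x)) = cont k (line (Φ y)) := by
  obtain ⟨-, n, f, hf, ⟨i, hi⟩, hfΦ⟩ := hΦ x hx
  have h1 : aeval y (f i) ≠ 0 := by
    intro h1
    have h2 := (mem_cont_line_hom (hf i)).2 h1
    rw [← h] at h2
    exact hi ((mem_cont_line_hom (hf i)).1 h2)
  rw [line_eq (hfΦ x hx ⟨i, hi⟩), line_eq (hfΦ y hy ⟨i, h1⟩)]
  ext g
  rw [cont_step' hf, cont_step' hf, h]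

/-- membership in a closed subset over `k` -/
theorem mem_iff_cont {V : Set (ι → K)} (hV : Closed X V) (hVd : Def k V) {x : ι → K} (hx : x ∈ X) :
    x ∈ V ↔ cont k V ≤ cont k (line x) := by
  constructor
  · intro h
    exact cont_anti (line_subset hV.1 h)
  · intro h
    rw [← hV.eq]
    refine ⟨hx, fun f hf => ?_⟩
    exact van_le_of_cont hVd h hf x (mem_line x)

variable [IsAlgClosed k] [IsAlgClosed K]

/-- the closure over `k` of a subvariety of a closed subset over `k` -/
theorem van_clo' {A V : Set (ι → K)} (hX : QuasiProjective X) (hA : Subvariety X A)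
    (hVX : V ⊆ X) (hVd : Def k V) (hAV : A ⊆ V) :
    van (clo k X A) = (cont k A).map (MvPolynomial.map (algebraMap k K)) := by
  haveI : Infinite K := IsAlgClosed.instInfinite
  haveI := cont_prime (k := k) hX.cone hA
  haveI := map_prime (K := K) (cont k A)
  obtain ⟨F, G, hFG⟩ := hX.locallyClosed
  apply le_antisymm
  · obtain ⟨x, hx⟩ := hA.nonempty
    have hxX := hA.subset hx
    rw [hFG] at hxX
    have hxG := hxX.2
    simp only [zeros, Set.mem_ofPred_eq, not_forall] at hxG
    obtain ⟨g, hg, hgx⟩ := hxG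
    intro f hf
    have h1 : f * g ∈ (cont k A).map (MvPolynomial.map (algebraMap k K)) := by
      rw [mem_prime_iff]
      intro y hy
      rw [map_mul]
      by_cases hyX : y ∈ X
      · have h2 : y ∈ clo k X A := mem_clo.2 ⟨hyX, fun g' hg' => by
          rw [← eval_map_eq]; exact hy _ (Ideal.mem_map_of_mem _ hg')⟩
        rw [hf y h2, zero_mul]
      · have h3 : y ∈ zeros F := by
          intro f' hf'
          have h4 : f' ∈ van V := by
            intro z hz
            have h5 := hVX hz
            rw [hFG] at h5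
            exact h5.1 f' hf'
          rw [← hVd] at h4
          exact hy f' (Ideal.map_mono (cont_anti hAV) h4)
        have h6 : y ∈ zeros G := by
          by_contra hcon
          exact hyX (by rw [hFG]; exact ⟨h3, hcon⟩)
        rw [h6 g hg, mul_zero]
    refine (Ideal.IsPrime.mem_or_mem inferInstance h1).resolve_right fun h2 => hgx ?_
    exact map_cont_le A h2 x hx
  · rw [Ideal.map_le_iff_le_comap]
    intro g hg x hx
    rw [eval_map_eq]
    exact (mem_clo.1 hx).2 g hg

theorem clo_sub' {A V : Set (ι → K)} (hX : QuasiProjective X) (hA : Subvariety X A)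
    (hVX : V ⊆ X) (hVd : Def k V) (hAV : A ⊆ V) : Subvariety X (clo k X A) := by
  haveI : Infinite K := IsAlgClosed.instInfinite
  haveI := cont_prime (k := k) hX.cone hA
  refine Subvariety.of_prime (clo_closed hX.cone hA.closed.1) ?_
  rw [van_clo' hX hA hVX hVd hAV]
  exact map_prime (K := K) (cont k A)

theorem cont_clo' {A V : Set (ι → K)} (hX : QuasiProjective X) (hA : Subvariety X A)
    (hVX : V ⊆ X) (hVd : Def k V) (hAV : A ⊆ V) : cont k (clo k X A) = cont k A := by
  refine le_antisymm (cont_anti (subset_clo hA.subset)) fun g hg => ?_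
  change MvPolynomial.map (algebraMap k K) g ∈ van (clo k X A)
  rw [van_clo' (k := k) hX hA hVX hVd hAV]
  exact Ideal.mem_map_of_mem _ hg

/-- **Return sets of transcendental points.** -/
theorem return_set (hX : QuasiProjective X) {Φ : (ι → K) → (ι → K)} (hΦ : RegularOver k X Φ)
    {α : ι → K} (hα : α ∈ X) {V : Set (ι → K)} (hV : Closed X V) (hVd : Def k V) {d : ℤ}
    (hd : ∀ A, Subvariety X A → A ⊆ V → dim A ≤ d)
    (htr : ∀ n, Φ^[n] α ∈ V → d ≤ dim (clo k X (line (Φ^[n] α)))) :
    IsUnionOfProgressions {n | Φ^[n] α ∈ V} := by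
  haveI : Infinite K := IsAlgClosed.instInfinite
  by_cases hfin : {n | Φ^[n] α ∈ V}.Finite
  · exact union_of_finite hfin
  have hmem : ∀ n, Φ^[n] α ∈ X := by
    intro n
    induction n with
    | zero => exact hα
    | succ n ih =>
      rw [Function.iterate_succ_apply']
      exact (hΦ _ ih).1
  have hcomp : ∀ n ∈ {n | Φ^[n] α ∈ V},
      clo k X (line (Φ^[n] α)) ∈ {C | IsComponent X C V} := by
    intro n hn
    have hl := line_sub hX.cone hX.zero (hmem n)
    have hlV : line (Φ^[n] α) ⊆ V := line_subset hV.1 hn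
    have hc := clo_sub' (k := k) hX hl hV.subset hVd hlV
    refine ⟨hc, clo_subset hV hVd (cont_anti hlV), fun D hD hcD hDV => ?_⟩
    have h1 := hd D hD hDV
    have h2 := htr n hn
    refine (eq_of_vd hX.cone hc hD hcD ?_).symm
    rw [dim_eq] at h1 h2
    omega
  obtain ⟨m, hm, m', hm', hne, heq⟩ := Set.Infinite.exists_ne_map_eq_of_mapsTo hfin hcomp
    (components_finite hV)
  have key : ∀ a b, a < b → Φ^[a] α ∈ V → Φ^[b] α ∈ V →
      clo k X (line (Φ^[a] α)) = clo k X (line (Φ^[b] α)) →
      IsUnionOfProgressions {n | Φ^[n] α ∈ V} := by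
    intro a b hab ha hb h1
    have h2 : cont k (line (Φ^[a] α)) = cont k (line (Φ^[b] α)) := by
      rw [← cont_clo' (k := k) hX (line_sub hX.cone hX.zero (hmem a)) hV.subset hVd
        (line_subset hV.1 ha), h1, cont_clo' (k := k) hX (line_sub hX.cone hX.zero (hmem b))
        hV.subset hVd (line_subset hV.1 hb)]
    have h3 : ∀ i, cont k (line (Φ^[a + i] α)) = cont k (line (Φ^[b + i] α)) := by
      intro i
      induction i with
      | zero => exact h2
      | succ i ih =>
        rw [← add_assoc, ← add_assoc, Function.iterate_succ_apply', Function.iterate_succ_apply']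
        exact cont_step hΦ (hmem _) (hmem _) ih
    refine union_of_periodic (m := a) (p := b - a) (by omega) fun i => ?_
    have h4 : a + (b - a) + i = b + i := by omega
    rw [h4, Set.mem_ofPred_eq, Set.mem_ofPred_eq, mem_iff_cont hV hVd (hmem _),
      mem_iff_cont hV hVd (hmem _), h3]
  rcases lt_or_gt_of_ne hne with h1 | h1
  · exact key m m' h1 hm hm' heq
  · exact key m' m h1 hm' hm heq.symm

end

end Pool.Agent.R370.TZ
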