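import Pool.Agent.R370.TZ.S
import Pool.Agent.R370.TZ.V

/-!
# Fibres over points which are generic over the algebraic numbers
-/

set_option autoImplicit false
set_option linter.unusedSectionVars false
set_option linter.style.haveILetI false

namespace Pool.Agent.R370.TZ

open MvPolynomial Pool.Agent.R948 Pool.Agent.R948.ZP Pool.Agent.R370.JU Pool.Agent.R370.HS

section Definitions

/-- The points of `F` whose smallest special subvariety has dimension at most `m`. -/
def smallHull {K : Type} [Field K] {ι : Type} [Fintype ι]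
    (𝒮 : Set (Set (ι → K))) (F : Set (ι → K)) (m : ℤ) : Set (ι → K) :=
  {y | y ∈ F ∧ dim (hull 𝒮 (line y)) ≤ m}

end Definitions

variable {k K : Type} [Field k] [Field K] [Algebra k K] [IsAlgClosed k] [IsAlgClosed K]
  {ι : Type} [Fintype ι] {X : Set (ι → K)} {𝒮 : Set (Set (ι → K))}

theorem smallHull_cone {F : Set (ι → K)} (hF : IsCone F) (m : ℤ) : IsCone (smallHull 𝒮 F m) := by
  rintro y ⟨hy, hym⟩ c hc
  refine ⟨hF y hy c hc, ?_⟩
  rwa [line_eq (x := c • y) (z := y) ⟨c, hc, rfl⟩]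

/-- the closure over `k` of a component of the closure of the orbit in a fibre -/
theorem fibre_gap (hX : QuasiProjective X) (h𝒮 : SpecialStructure X 𝒮)
    (hd : ∀ S ∈ 𝒮, Def k S) {T F : Set (ι → K)} (hT : T ∈ 𝒮) (hFT : F ⊆ T) {m : ℤ}
    (hFm : ∀ A, Subvariety X A → A ⊆ F → m ≤ gap k X A) {C : Set (ι → K)} (hC : Subvariety X C)
    (hCF : C ⊆ F) (hdense : Dense X C (smallHull 𝒮 F m)) :
    gap k X C = m ∧ Dense X (clo k X C) (⋃₀ {S | S ∈ 𝒮 ∧ S ⊆ clo k X C ∧ dim S = m}) := by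
  haveI : Infinite K := IsAlgClosed.instInfinite
  have h1 : Dense X C (lowDefect X 𝒮 m) := by
    intro W hW hCW
    refine hdense W hW ?_
    rintro y ⟨hyC, hyF, hym⟩
    refine hCW ⟨hyC, hC.subset hyC, ?_⟩
    rw [defect, dim_line hX (hC.subset hyC)]
    omega
  obtain ⟨h2, -, h3⟩ := pink_points (k := k) hX h𝒮 hd hT hC (hCF.trans hFT) h1
  have h4 := hFm C hC hCF
  have h5 : gap k X C = m := le_antisymm h2 h4
  refine ⟨h5, ?_⟩
  rw [dense_sUnion fun S hS => hS.2.1]
  exact fun W hW hS => h3 h5 W hW fun S h6 h7 h8 => hS S ⟨h6, h7, h8⟩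

/-- a subvariety of the fibre with the smallest possible closure over `k` is a component of the fibre of
its closure -/
theorem fibre_component (hX : QuasiProjective X) {T F : Set (ι → K)} (hT : Subvariety X T)
    (hTd : Def k T) (hFT : F ⊆ T) {m : ℤ}
    (hFm : ∀ A, Subvariety X A → A ⊆ F → m ≤ gap k X A) {C : Set (ι → K)} (hC : Subvariety X C)
    (hCF : C ⊆ F) (hCm : gap k X C = m) : IsComponent X C (F ∩ clo k X C) := by
  haveI : Infinite K := IsAlgClosed.instInfinite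
  refine ⟨hC, Set.subset_inter hCF (subset_clo hC.subset), fun D hD hCD hDF => ?_⟩
  have hDF' := hDF.trans Set.inter_subset_left
  have h1 := hFm D hD hDF'
  have h2 := clo_sub (k := k) hX hC hT hTd (hCF.trans hFT)
  have h2d := def_clo (k := k) hX hC hT hTd (hCF.trans hFT)
  have h3 : clo k X D ⊆ clo k X C :=
    clo_subset h2.closed h2d (cont_anti (hDF.trans Set.inter_subset_right))
  have h4 := clo_sub (k := k) hX hD hT hTd (hDF'.trans hFT)
  have h5 := vd_mono hX.cone h4 h2 h3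
  refine (eq_of_vd hX.cone hC hD hCD ?_).symm
  rw [gap, dim_eq, dim_eq] at h1 hCm
  omega

/-- **The closure of the intersection of a subvariety of a generic fibre with the orbit.** -/
theorem fibre_orbit (hX : QuasiProjective X) (h𝒮 : SpecialStructure X 𝒮)
    (hd : ∀ S ∈ 𝒮, Def k S) {T F : Set (ι → K)} (hT : T ∈ 𝒮) (hFT : F ⊆ T) (hFc : IsCone F)
    {m : ℤ} (hFm : ∀ A, Subvariety X A → A ⊆ F → m ≤ gap k X A) {V : Set (ι → K)}
    (hV : Subvariety X V) (hVF : V ⊆ F) :
    {C | IsComponent X C (zcl X (V ∩ smallHull 𝒮 F m))}.Finite ∧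
    ⋃₀ {C | IsComponent X C (zcl X (V ∩ smallHull 𝒮 F m))} = zcl X (V ∩ smallHull 𝒮 F m) ∧
    ∀ C, IsComponent X C (zcl X (V ∩ smallHull 𝒮 F m)) →
      C ⊆ V ∧ gap k X C = m ∧ IsComponent X C (F ∩ clo k X C) ∧
      Dense X (clo k X C) (⋃₀ {S | S ∈ 𝒮 ∧ S ⊆ clo k X C ∧ dim S = m}) := by
  haveI : Infinite K := IsAlgClosed.instInfinite
  have hPc := smallHull_cone (𝒮 := 𝒮) hFc m
  have hM : IsCone (V ∩ smallHull 𝒮 F m) :=
    fun x hx c hc => ⟨hV.closed.1 x hx.1 c hc, hPc x hx.2 c hc⟩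
  have hMX : V ∩ smallHull 𝒮 F m ⊆ X := fun x hx => hV.subset hx.1
  have hF := zcl_closed hX.cone hM hMX
  have hFV : zcl X (V ∩ smallHull 𝒮 F m) ⊆ V := zcl_subset hV.closed Set.inter_subset_left
  refine ⟨components_finite hF, sUnion_components hX hF, fun C hC => ?_⟩
  have hCV := hC.2.1.trans hFV
  have hTs := h𝒮.subvariety _ hT
  obtain ⟨h1, h2⟩ := fibre_gap (k := k) hX h𝒮 hd hT hFT hFm hC.1 (hCV.trans hVF) (by
    intro W hW hWC
    exact component_dense hX hM hMX hC hW fun x hx hxM _ => hWC ⟨hx, hxM.2⟩)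
  exact ⟨hCV, h1, fibre_component (k := k) hX hTs (hd T hT) hFT hFm hC.1 (hCV.trans hVF) h1, h2⟩

end Pool.Agent.R370.TZ
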