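import Pool.Agent.R370.TZ.P

/-!
# Sections by hyperplanes over `k` and points of small transcendence degree
-/

set_option autoImplicit false
set_option linter.unusedSectionVars false
set_option linter.style.haveILetI false

namespace Pool.Agent.R370.TZ

open MvPolynomial Pool.Agent.R948 Pool.Agent.R948.ZP Pool.Agent.R370.JU Pool.Agent.R370.HS

attribute [local instance] MvPolynomial.gradedAlgebra

section

variable {k K : Type} [Field k] [Field K] [Algebra k K] {ι : Type} [Fintype ι]

/-- a linear form over `k` which does not vanish at finitely many given points -/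
theorem exists_lin [Infinite k] {Y : Set (ι → K)} (hY : Y.Finite) (h0 : ∀ y ∈ Y, y ≠ 0) :
    ∃ u : ι → k, ∀ y ∈ Y, ∑ i, algebraMap k K (u i) * y i ≠ 0 := by
  classical
  let e := Fintype.equivFin ι
  let q : (ι → K) → Polynomial K := fun y => ∑ i, Polynomial.C (y i) * Polynomial.X ^ (e i : ℕ)
  have hq : ∀ y, y ≠ 0 → q y ≠ 0 := by
    intro y hy hq0
    apply hy
    funext i
    have h1 : (q y).coeff (e i : ℕ) = y i := by
      rw [Polynomial.finsetSum_coeff, Finset.sum_eq_single i]
      · rw [Polynomial.coeff_C_mul, Polynomial.coeff_X_pow_self, mul_one]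
      · intro j _ hj
        rw [Polynomial.coeff_C_mul, Polynomial.coeff_X_pow, if_neg, mul_zero]
        exact fun h3 => hj (e.injective (Fin.ext h3.symm))
      · exact fun h3 => absurd (Finset.mem_univ _) h3
    rw [← h1, hq0, Polynomial.coeff_zero, Pi.zero_apply]
  have hbad : (⋃ y ∈ Y, {t : k | (q y).eval (algebraMap k K t) = 0}).Finite := by
    refine hY.biUnion fun y hy => ?_
    have h1 : {s : K | (q y).eval s = 0}.Finite := by
      refine (Finset.finite_toSet (q y).roots.toFinset).subset fun s hs => ?_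
      rw [Finset.mem_coe, Multiset.mem_toFinset, Polynomial.mem_roots (hq y (h0 y hy)),
        Polynomial.IsRoot.def]
      exact hs
    exact h1.preimage (algebraMap k K).injective.injOn
  obtain ⟨t, ht⟩ := hbad.infinite_compl.nonempty
  refine ⟨fun i => t ^ (e i : ℕ), fun y hy h => ht (Set.mem_biUnion hy ?_)⟩
  rw [Set.mem_ofPred_eq, ← h]
  simp only [q, Polynomial.eval_finsetSum, Polynomial.eval_mul, Polynomial.eval_C,
    Polynomial.eval_pow, Polynomial.eval_X, map_pow]
  exact Finset.sum_congr rfl fun j _ => mul_comm _ _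

end

section

variable {k K : Type} [Field k] [Field K] [Algebra k K] [IsAlgClosed k] [IsAlgClosed K]
  {ι : Type} [Fintype ι] {X : Set (ι → K)}

/-- a section of a subvariety by a hyperplane over `k` -/
theorem exists_ksection (hX : QuasiProjective X) {A : Set (ι → K)} (hA : Subvariety X A)
    (hA2 : 2 ≤ vd A) : ∃ (u : ι → k) (B : Set (ι → K)), Subvariety X B ∧ B ⊆ A ∧
      (∀ x ∈ B, ∑ i, algebraMap k K (u i) * x i = 0) ∧
      (∃ x ∈ A, ∑ i, algebraMap k K (u i) * x i ≠ 0) ∧ vd A ≤ vd B + 1 := by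
  classical
  haveI : Infinite K := IsAlgClosed.instInfinite
  haveI : Infinite k := IsAlgClosed.instInfinite
  haveI := hA.prime hX.cone
  obtain ⟨F, G, hFG⟩ := hX.locallyClosed
  obtain ⟨x, hx⟩ := hA.nonempty
  have hxX := hA.subset hx
  have hx0 : x ≠ 0 := fun h => hX.zero (h ▸ hxX)
  have hxX' := hxX
  rw [hFG] at hxX'
  have hxG := hxX'.2
  simp only [zeros, Set.mem_ofPred_eq, not_forall] at hxG
  obtain ⟨g, hg, hgx⟩ := hxG
  have hgA : g ∉ van A := fun h => hgx (h x hx)
  have hFA : ∀ f ∈ F, f ∈ van A := by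
    intro f hf z hz
    have h5 := hA.subset hz
    rw [hFG] at h5
    exact h5.1 f hf
  -- points on the components of the boundary
  let y : Ideal (MvPolynomial ι K) → (ι → K) := fun Q =>
    if h : ∃ z : ι → K, (∀ f ∈ Q, eval z f = 0) ∧ z ≠ 0 then h.choose else x
  have hy0 : ∀ Q, y Q ≠ 0 := by
    intro Q
    by_cases h : ∃ z : ι → K, (∀ f ∈ Q, eval z f = 0) ∧ z ≠ 0
    · simp only [y, dif_pos h]
      exact h.choose_spec.2
    · simp only [y, dif_neg h]
      exact hx0
  have hyQ : ∀ Q : Ideal (MvPolynomial ι K), (∃ z : ι → K, (∀ f ∈ Q, eval z f = 0) ∧ z ≠ 0) →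
      ∀ f ∈ Q, eval (y Q) f = 0 := by
    intro Q h
    simp only [y, dif_pos h]
    exact h.choose_spec.1
  have hfin : ((van A ⊔ Ideal.span {g}).minimalPrimes).Finite :=
    Ideal.finite_minimalPrimes_of_isNoetherianRing _ _
  obtain ⟨u, hu⟩ := exists_lin (k := k) (Y := insert x (y '' (van A ⊔ Ideal.span {g}).minimalPrimes))
    ((hfin.image y).insert x) (by
      intro z hz
      rcases Set.mem_insert_iff.1 hz with rfl | ⟨Q, -, rfl⟩
      · exact hx0
      · exact hy0 Q)
  let w : ι → K := fun i => algebraMap k K (u i)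
  -- the ideal of the section is proper
  have hI : van A ⊔ Ideal.span {lin w} ≠ ⊤ := by
    intro htop
    have h1 : van A ⊔ Ideal.span {lin w} ≤ RingHom.ker (eval (0 : ι → K)) := by
      refine sup_le (fun f hf => ?_) ?_
      · rw [RingHom.mem_ker]
        have h2 : f ∈ van (line x) := fun z hz => hf z (line_subset hA.closed.1 hx hz)
        rw [mem_van_line] at h2
        have h3 := eval_lp x f 0
        rw [h2, Polynomial.eval_zero, zero_smul] at h3
        exact h3.symm
      · rw [Ideal.span_le, Set.singleton_subset_iff, SetLike.mem_coe, RingHom.mem_ker, eval_lin]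
        simp
    rw [htop] at h1
    have h2 : (1 : MvPolynomial ι K) ∈ RingHom.ker (eval (0 : ι → K)) := h1 trivial
    rw [RingHom.mem_ker, map_one] at h2
    exact one_ne_zero h2
  obtain ⟨Q, hQ⟩ := Ideal.nonempty_minimalPrimes hI
  haveI hQp : Q.IsPrime := hQ.1.1
  have hAQ : van A ≤ Q := le_sup_left.trans hQ.1.2
  have hlQ : lin w ∈ Q := hQ.1.2 (Ideal.mem_sup_right (Ideal.mem_span_singleton_self _))
  have h1 : tdP (van A) ≤ tdP Q + 1 := tdP_drop (lin w) hQ
  have hA2' := hA2
  rw [vd_eq] at hA2'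
  have hXi : ∃ i, (MvPolynomial.X i : MvPolynomial ι K) ∉ Q := by
    by_contra hcon
    push Not at hcon
    have h2 : tdP Q ≤ 0 := by
      have h3 : td K (cp Q) ≤ td K (fun i : Empty => (i.elim : MvPolynomial ι K ⧸ Q)) := by
        refine td_le_of_alg K fun i => ?_
        have h4 : cp Q i = 0 := Ideal.Quotient.eq_zero_iff_mem.2 (hcon i)
        rw [h4]
        exact isAlgebraic_zero
      refine h3.trans ((td_le_card K _).trans ?_)
      simp
    omega
  have hzQ : ∃ z : ι → K, (∀ f ∈ Q, eval z f = 0) ∧ z ≠ 0 := by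
    obtain ⟨i₀, hi₀⟩ := hXi
    rw [mem_prime_iff] at hi₀
    push Not at hi₀
    obtain ⟨z, hz, hzi⟩ := hi₀
    refine ⟨z, hz, fun h => hzi ?_⟩
    rw [eval_X, h, Pi.zero_apply]
  have hgQ : g ∉ Q := by
    intro hgQ
    obtain ⟨Q', hQ', hQ'Q⟩ := Ideal.exists_minimalPrimes_le (I := van A ⊔ Ideal.span {g}) (J := Q)
      (sup_le hAQ (by rw [Ideal.span_le, Set.singleton_subset_iff]; exact hgQ))
    haveI hQp' : Q'.IsPrime := hQ'.1.1
    have h2 : van A < Q' := by
      refine lt_of_le_of_ne (le_sup_left.trans hQ'.1.2) fun h => hgA ?_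
      rw [h]
      exact hQ'.1.2 (Ideal.mem_sup_right (Ideal.mem_span_singleton_self _))
    have h3 := tdP_strict h2
    have h4 : Q' = Q := by
      by_contra hne
      have h5 := tdP_strict (lt_of_le_of_ne hQ'Q hne)
      omega
    subst h4
    have h5 := hyQ Q' hzQ _ hlQ
    rw [eval_lin] at h5
    exact hu (y Q') (Set.mem_insert_of_mem _ ⟨Q', hQ', rfl⟩) h5
  have hQh : Q.IsHomogeneous (homogeneousSubmodule ι K) := by
    let Qh : Ideal (MvPolynomial ι K) := (Q.homogeneousCore (homogeneousSubmodule ι K)).toIdeal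
    have hQhp : Qh.IsPrime := hQp.homogeneousCore
    have hQh1 : Qh ≤ Q := Ideal.toIdeal_homogeneousCore_le _ _
    have hQh2 : van A ⊔ Ideal.span {lin w} ≤ Qh := by
      refine sup_le ?_ ?_
      · have h3 := Ideal.homogeneousCore_mono (homogeneousSubmodule ι K) hAQ
        rw [← (van_isHomogeneous hA.closed.1).toIdeal_homogeneousCore_eq_self]
        exact h3
      · rw [Ideal.span_le, Set.singleton_subset_iff]
        exact Ideal.mem_homogeneousCore_of_homogeneous_of_mem ⟨1, lin_hom w⟩ hlQ
    have hQh3 : Q ≤ Qh := hQ.2 ⟨hQhp, hQh2⟩ hQh1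
    have h5 : Q = Qh := le_antisymm hQh3 hQh1
    rw [h5]
    exact (Q.homogeneousCore (homogeneousSubmodule ι K)).isHomogeneous
  obtain ⟨hD, hvD⟩ := sub_of_hom_prime hX.cone hFG Q hQp hQh (fun f hf => hAQ (hFA f hf)) hg hgQ
  refine ⟨u, _, hD, ?_, fun z hz => ?_, ⟨x, hx, hu x (Set.mem_insert _ _)⟩, ?_⟩
  · exact Closed.le_of_van hD.subset hA.closed (by rw [hvD]; exact hAQ)
  · have h2 := hz.2 _ hlQ
    rwa [eval_lin] at h2
  · haveI := hD.prime hX.cone
    rw [vd_eq, vd_eq]
    simp only [hvD]
    exact h1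

/-- **Every subvariety `A` has points of transcendence degree at most `dim A₀ - dim A`**, where `A₀` is
the closure of `A` over `k`. -/
theorem exists_small_point (hX : QuasiProjective X) {T : Set (ι → K)} (hT : Subvariety X T)
    (hTd : Def k T) : ∀ (n : ℕ) (A : Set (ι → K)), Subvariety X A → A ⊆ T → vd A = n →
      ∃ y ∈ A, vd (clo k X (line y)) + vd A ≤ vd (clo k X A) + 1 := by
  haveI : Infinite K := IsAlgClosed.instInfinite
  intro n
  induction n using Nat.strong_induction_on with
  | _ n ih =>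
    intro A hA hAT hn
    by_cases h2 : 2 ≤ vd A
    · obtain ⟨u, B, hB, hBA, hBu, ⟨x, hx, hxu⟩, hd⟩ := exists_ksection (k := k) hX hA h2
      have hne : B ≠ A := by
        rintro rfl
        exact hxu (hBu x hx)
      have h3 := vd_strict hX.cone hB hA (Set.ssubset_iff_subset_ne.2 ⟨hBA, hne⟩)
      obtain ⟨y, hy, hy2⟩ := ih (vd B) (by omega) B hB (hBA.trans hAT) rfl
      have hcB := clo_sub (k := k) hX hB hT hTd (hBA.trans hAT)
      have hcA := clo_sub (k := k) hX hA hT hTd hAT
      have hcAd := def_clo (k := k) hX hA hT hTd hAT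
      have h4 : clo k X B ⊂ clo k X A := by
        refine Set.ssubset_iff_subset_ne.2
          ⟨clo_subset hcA.closed hcAd (cont_anti (hBA.trans (subset_clo hA.subset))), fun h => ?_⟩
        have h5 : x ∈ clo k X B := h ▸ subset_clo hA.subset hx
        have h6 : (∑ i, C (u i) * MvPolynomial.X i : MvPolynomial ι k) ∈ cont k B := by
          intro z hz
          rw [eval_map_eq, map_sum]
          simp only [map_mul, aeval_X, aeval_C]
          exact hBu z hz
        have h7 := (mem_clo.1 h5).2 _ h6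
        rw [map_sum] at h7
        simp only [map_mul, aeval_X, aeval_C] at h7
        exact hxu h7
      have h5 := vd_strict hX.cone hcB hcA h4
      exact ⟨y, hBA hy, by omega⟩
    · obtain ⟨x, hx⟩ := hA.nonempty
      have hxX := hA.subset hx
      have h3 : line x = A := by
        refine eq_of_vd hX.cone (line_sub hX.cone hX.zero hxX) hA (line_subset hA.closed.1 hx) ?_
        rw [vd_line hX.cone hX.zero hxX]
        omega
      refine ⟨x, hx, ?_⟩
      rw [h3]
      omega

/-- the gap and the transcendence degrees of the points -/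
theorem le_gap_of_points (hX : QuasiProjective X) {T A : Set (ι → K)} (hT : Subvariety X T)
    (hTd : Def k T) (hA : Subvariety X A) (hAT : A ⊆ T) {m : ℤ}
    (h : ∀ y ∈ A, m ≤ dim (clo k X (line y))) : m ≤ gap k X A := by
  obtain ⟨y, hy, h1⟩ := exists_small_point (k := k) hX hT hTd _ A hA hAT rfl
  have h2 := h y hy
  rw [dim_eq] at h2
  rw [gap, dim_eq, dim_eq]
  omega

end

end Pool.Agent.R370.TZ
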