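import Pool.Agent.R370.TZ.G
import Pool.Agent.R370.TZ.K

/-!
# Fibres over points which are not defined over the algebraic numbers
-/

set_option autoImplicit false
set_option linter.unusedSectionVars false
set_option linter.style.haveILetI false

namespace Pool.Agent.R370.TZ

open MvPolynomial Pool.Agent.R948 Pool.Agent.R948.ZP Pool.Agent.R370.JU Pool.Agent.R370.HS

section Definitions

/-- The properties of the fibre `F = {x} × Sh_G` over a Hodge generic point `x` of transcendence
degree `b` over `k` of a Shimura variety `Sh_M` of dimension `m`. -/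
structure FibreData (k : Type) [Field k] {K : Type} [Field K] [Algebra k K] {ι : Type}
    [Fintype ι] (X : Set (ι → K)) (𝒮 : Set (Set (ι → K))) (F : Set (ι → K)) (b m : ℤ) : Prop where
  cone : IsCone F
  /-- all points of the fibre have transcendence degree at least `b` -/
  degree : ∀ y ∈ F, b ≤ dim (clo k X (line y))
  /-- the points `(x, s)` with `s` in the orbit have transcendence degree `b` -/
  orbit : ∀ y ∈ smallHull 𝒮 F m, dim (clo k X (line y)) ≤ b
  /-- the fibres over `x` of the special subvarieties `S` have dimension at most `dim S - m` -/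
  special : ∀ S ∈ 𝒮, ∀ D, Subvariety X D → D ⊆ F ∩ S → dim D + m ≤ dim S

end Definitions

variable {k K : Type} [Field k] [Field K] [Algebra k K] [IsAlgClosed k] [IsAlgClosed K]
  {ι : Type} [Fintype ι] {X : Set (ι → K)} {𝒮 : Set (Set (ι → K))}

/-- generic points -/
theorem fibreData_generic (hX : QuasiProjective X) (h𝒮 : SpecialStructure X 𝒮)
    (hd : ∀ S ∈ 𝒮, Def k S) {T F : Set (ι → K)} (hT : T ∈ 𝒮) (hFT : F ⊆ T) (hF : IsCone F) {m : ℤ}
    (hFm : ∀ y ∈ F, m ≤ dim (clo k X (line y))) : FibreData k X 𝒮 F m m := by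
  haveI : Infinite K := IsAlgClosed.instInfinite
  have hTs := h𝒮.subvariety _ hT
  refine ⟨hF, hFm, ?_, ?_⟩
  · rintro y ⟨hy, hym⟩
    have hyX := hTs.subset (hFT hy)
    have hl := line_sub hX.cone hX.zero hyX
    have hlT : line y ⊆ T := line_subset hTs.closed.1 (hFT hy)
    have h1 := hull_mem hX.cone h𝒮 hl hT hlT
    have h2 := h𝒮.subvariety _ h1
    have h3 : clo k X (line y) ⊆ hull 𝒮 (line y) :=
      clo_subset h2.closed (hd _ h1) (cont_anti (subset_hull _))
    have h4 := vd_mono hX.cone (clo_sub (k := k) hX hl hTs (hd T hT) hlT) h2 h3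
    rw [dim_eq] at hym ⊢
    omega
  · intro S hS D hD hDF
    have hDT := (hDF.trans Set.inter_subset_left).trans hFT
    have h1 := le_gap_of_points (k := k) hX hTs (hd T hT) hD hDT
      fun y hy => hFm y (hDF hy).1
    have h2 := h𝒮.subvariety _ hS
    have h3 : clo k X D ⊆ S :=
      clo_subset h2.closed (hd _ hS) (cont_anti (hDF.trans Set.inter_subset_right))
    have h4 := vd_mono hX.cone (clo_sub (k := k) hX hD hTs (hd T hT) hDT) h2 h3
    rw [gap, dim_eq, dim_eq] at h1
    rw [dim_eq, dim_eq]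
    omega

/-- the closure over `k` of a subvariety of the fibre in which the orbit is dense -/
theorem fibreData_gap (hX : QuasiProjective X) (h𝒮 : SpecialStructure X 𝒮)
    (hd : ∀ S ∈ 𝒮, Def k S) {T F : Set (ι → K)} (hT : T ∈ 𝒮) (hFT : F ⊆ T) {b m : ℤ}
    (hF : FibreData k X 𝒮 F b m) {C : Set (ι → K)} (hC : Subvariety X C)
    (hCF : C ⊆ F) (hdense : Dense X C (smallHull 𝒮 F m)) :
    gap k X C = b ∧ Dense X (clo k X C) (⋃₀ {B | ∃ y, y ∈ C ∧ y ∈ smallHull 𝒮 F m ∧
      B = clo k X (line y) ∧ dim B = b ∧ dim (hull 𝒮 B) = m}) := by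
  haveI : Infinite K := IsAlgClosed.instInfinite
  have hTs := h𝒮.subvariety _ hT
  have hCT := hCF.trans hFT
  have hcC := clo_sub (k := k) hX hC hTs (hd T hT) hCT
  have hcCd := def_clo (k := k) hX hC hTs (hd T hT) hCT
  have h1 := le_gap_of_points (k := k) hX hTs (hd T hT) hC hCT fun y hy => hF.degree y (hCF hy)
  have h2 : gap k X C ≤ b := by
    obtain ⟨D, hDc, hCD, hDA⟩ := exists_jump (k := k) hX hC hTs (hd T hT) hCT
    by_contra hcon
    refine hCD (hdense D hDc ?_)
    rintro y ⟨hyC, hyP⟩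
    by_contra hyD
    have hyX := hC.subset hyC
    have h3 := hDA (line y) (line_sub hX.cone hX.zero hyX) (line_subset hC.closed.1 hyC)
      fun h => hyD (h (mem_line y))
    have h4 := hF.orbit y hyP
    rw [vd_line hX.cone hX.zero hyX] at h3
    rw [gap, dim_eq, dim_eq] at hcon
    rw [dim_eq] at h4
    omega
  refine ⟨le_antisymm h2 h1, ?_⟩
  have h𝓑 : ∀ B ∈ {B | ∃ y, y ∈ C ∧ y ∈ smallHull 𝒮 F m ∧ B = clo k X (line y) ∧ dim B = b ∧
      dim (hull 𝒮 B) = m}, B ⊆ clo k X C := by
    rintro _ ⟨y, hyC, -, rfl, -, -⟩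
    exact clo_subset hcC.closed hcCd
      (cont_anti ((line_subset hC.closed.1 hyC).trans (subset_clo hC.subset)))
  rw [dense_sUnion h𝓑]
  intro W₀ hW₀ hW₀B
  by_contra hcon
  obtain ⟨W, hW, hCW, hWA⟩ := exists_cover (k := k) hX hC hTs (hd T hT) hCT hW₀ hcon
  refine hCW (hdense W hW ?_)
  rintro y ⟨hyC, hyP⟩
  have hyX := hC.subset hyC
  have hl := line_sub hX.cone hX.zero hyX
  have hlC : line y ⊆ C := line_subset hC.closed.1 hyC
  refine hWA (line y) hl (hlC.trans hCT) (hW₀B _ ⟨y, hyC, hyP, rfl, ?_, ?_⟩) (mem_line y)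
  · exact le_antisymm (hF.orbit y hyP) (hF.degree y (hCF hyC))
  · rw [hull_clo h𝒮 hd hl]
    refine le_antisymm hyP.2 ?_
    have h3 := hF.special _ (hull_mem hX.cone h𝒮 hl hT (hlC.trans hCT)) (line y) hl
      (Set.subset_inter (hlC.trans hCF) (subset_hull _))
    rw [dim_line hX hyX] at h3
    omega

/-- the hull of a subvariety of the fibre whose closure over `k` has small defect -/
theorem fibreData_hull (hX : QuasiProjective X) (h𝒮 : SpecialStructure X 𝒮)
    (hd : ∀ S ∈ 𝒮, Def k S) {T F : Set (ι → K)} (hT : T ∈ 𝒮) (hFT : F ⊆ T) {b m : ℤ}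
    (hF : FibreData k X 𝒮 F b m) {C : Set (ι → K)} (hC : Subvariety X C)
    (hCF : C ⊆ F) (hg : gap k X C = b) (hdef : defect 𝒮 (clo k X C) ≤ m - b) :
    hull 𝒮 C ∈ 𝒮 ∧ dim (hull 𝒮 C) = dim C + m ∧ IsComponent X C (F ∩ hull 𝒮 C) := by
  haveI : Infinite K := IsAlgClosed.instInfinite
  have h1 := hull_mem hX.cone h𝒮 hC hT (hCF.trans hFT)
  have h2 := hF.special _ h1 C hC (Set.subset_inter hCF (subset_hull C))
  have h3 : dim (hull 𝒮 C) = dim C + m := by
    rw [defect, hull_clo h𝒮 hd hC] at hdef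
    rw [gap] at hg
    omega
  refine ⟨h1, h3, hC, Set.subset_inter hCF (subset_hull C), fun D hD hCD hDF => ?_⟩
  have h4 := hF.special _ h1 D hD hDF
  refine (eq_of_vd hX.cone hC hD hCD ?_).symm
  rw [h3, dim_eq, dim_eq] at h4
  omega

end Pool.Agent.R370.TZ
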