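import Pool.Agent.R370.TZ.E

/-!
# Points of small defect on varieties which are not defined over `k`
-/

set_option autoImplicit false
set_option linter.unusedSectionVars false
set_option linter.style.haveILetI false

namespace Pool.Agent.R370.TZ

open MvPolynomial Pool.Agent.R948 Pool.Agent.R948.ZP Pool.Agent.R370.JU Pool.Agent.R370.HS

section Definitions

/-- The set of points `M` (stable under nonzero scalars) is Zariski dense in `Z`. -/
def Dense {K : Type} [Field K] {ι : Type} [Fintype ι] (X Z M : Set (ι → K)) : Prop :=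
  ∀ W, Closed X W → Z ∩ M ⊆ W → Z ⊆ W

/-- The number `dim Z₀ - dim Z`, where `Z₀` is the smallest closed subset over `k` which contains
`Z`; it is `0` iff `Z` is defined over `k`. -/
noncomputable def gap (k : Type) [Field k] {K : Type} [Field K] [Algebra k K] {ι : Type}
    [Fintype ι] (X Z : Set (ι → K)) : ℤ := dim (clo k X Z) - dim Z

/-- The points of defect at most `d`. -/
def lowDefect {K : Type} [Field K] {ι : Type} [Fintype ι] (X : Set (ι → K))
    (𝒮 : Set (Set (ι → K))) (d : ℤ) : Set (ι → K) := {x | x ∈ X ∧ defect 𝒮 (line x) ≤ d}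

end Definitions

variable {k K : Type} [Field k] [Field K] [Algebra k K] [IsAlgClosed k] [IsAlgClosed K]
  {ι : Type} [Fintype ι] {X : Set (ι → K)} {𝒮 : Set (Set (ι → K))}

theorem gap_nonneg (hX : QuasiProjective X) {Z T : Set (ι → K)} (hZ : Subvariety X Z)
    (hT : Subvariety X T) (hTd : Def k T) (hZT : Z ⊆ T) : 0 ≤ gap k X Z := by
  have h1 := dim_le_kdim (k := k) hX hZ hT hTd hZT
  rw [kdim] at h1
  rw [gap]
  omega

theorem gap_eq_zero (hX : QuasiProjective X) {Z T : Set (ι → K)} (hZ : Subvariety X Z)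
    (hT : Subvariety X T) (hTd : Def k T) (hZT : Z ⊆ T) : gap k X Z = 0 ↔ Def k Z := by
  haveI : Infinite K := IsAlgClosed.instInfinite
  constructor
  · intro h1
    rw [gap, dim_eq, dim_eq] at h1
    have h2 := eq_of_vd hX.cone hZ (clo_sub (k := k) hX hZ hT hTd hZT) (subset_clo hZ.subset)
      (by omega)
    have h3 := def_clo (k := k) hX hZ hT hTd hZT
    rwa [← h2] at h3
  · intro h1
    rw [gap, clo_eq hZ h1, sub_self]

theorem defect_clo (h𝒮 : SpecialStructure X 𝒮) (hd : ∀ S ∈ 𝒮, Def k S) {Z : Set (ι → K)}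
    (hZ : Subvariety X Z) : defect 𝒮 (clo k X Z) = defect 𝒮 Z - gap k X Z := by
  rw [defect, defect, gap, hull_clo h𝒮 hd hZ]
  ring

/-- the closure of the points of small defect outside of the jump locus -/
theorem pink_point (hX : QuasiProjective X) (h𝒮 : SpecialStructure X 𝒮)
    (hd : ∀ S ∈ 𝒮, Def k S) {T Z : Set (ι → K)} (hT : T ∈ 𝒮) (hZ : Subvariety X Z) (hZT : Z ⊆ T)
    {D : Set (ι → K)}
    (hD : ∀ A, Subvariety X A → A ⊆ Z → ¬ A ⊆ D → vd (clo k X Z) + vd A ≤ vd (clo k X A) + vd Z)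
    {x : ι → K} (hx : x ∈ Z) (hxD : x ∉ D) {d : ℤ} (hxd : defect 𝒮 (line x) ≤ d) :
    Subvariety X (clo k X (line x)) ∧ clo k X (line x) ⊆ clo k X Z ∧ Def k (clo k X (line x)) ∧
      gap k X Z ≤ dim (clo k X (line x)) ∧ dim (hull 𝒮 (clo k X (line x))) ≤ d ∧
      dim (clo k X (line x)) ≤ d := by
  haveI : Infinite K := IsAlgClosed.instInfinite
  have hTs := h𝒮.subvariety _ hT
  have hxX := hZ.subset hx
  have hl := line_sub hX.cone hX.zero hxX
  have hlZ : line x ⊆ Z := line_subset hZ.closed.1 hx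
  have hlT := hlZ.trans hZT
  have hlD : ¬ line x ⊆ D := fun h1 => hxD (h1 (mem_line x))
  have hc := clo_sub (k := k) hX hl hTs (hd T hT) hlT
  have hcZ := clo_sub (k := k) hX hZ hTs (hd T hT) hZT
  have hcd := def_clo (k := k) hX hl hTs (hd T hT) hlT
  have hcdZ := def_clo (k := k) hX hZ hTs (hd T hT) hZT
  have h1 := hD (line x) hl hlZ hlD
  rw [vd_line hX.cone hX.zero hxX] at h1
  have h2 : dim (hull 𝒮 (clo k X (line x))) ≤ d := by
    rw [hull_clo h𝒮 hd hl]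
    rw [defect, dim_line hX hxX] at hxd
    omega
  have h3 := hull_mem hX.cone h𝒮 hl hT hlT
  have h4 : clo k X (line x) ⊆ hull 𝒮 (line x) :=
    clo_subset (h𝒮.subvariety _ h3).closed (hd _ h3) (cont_anti (subset_hull _))
  have h5 := vd_mono hX.cone hc (h𝒮.subvariety _ h3) h4
  refine ⟨hc, clo_subset hcZ.closed hcdZ (cont_anti (hlZ.trans (subset_clo hZ.subset))), hcd, ?_,
    h2, ?_⟩
  · rw [gap, dim_eq, dim_eq, dim_eq]
    omega
  · rw [hull_clo h𝒮 hd hl, dim_eq] at h2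
    rw [dim_eq]
    omega

/-- **Points of small defect.** -/
theorem pink_points (hX : QuasiProjective X) (h𝒮 : SpecialStructure X 𝒮)
    (hd : ∀ S ∈ 𝒮, Def k S) {T Z : Set (ι → K)} (hT : T ∈ 𝒮) (hZ : Subvariety X Z) (hZT : Z ⊆ T)
    {d : ℤ} (hdense : Dense X Z (lowDefect X 𝒮 d)) :
    gap k X Z ≤ d ∧
    (∀ W, Closed X W → (∀ B, Subvariety X B → B ⊆ clo k X Z → Def k B → gap k X Z ≤ dim B →
      dim (hull 𝒮 B) ≤ d → B ⊆ W) → clo k X Z ⊆ W) ∧
    (gap k X Z = d → ∀ W, Closed X W → (∀ S ∈ 𝒮, S ⊆ clo k X Z → dim S = d → S ⊆ W) →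
      clo k X Z ⊆ W) := by
  haveI : Infinite K := IsAlgClosed.instInfinite
  have hTs := h𝒮.subvariety _ hT
  obtain ⟨D, hDc, hZD, hDA⟩ := exists_jump (k := k) hX hZ hTs (hd T hT) hZT
  have hmain : ∀ W, Closed X W → (∀ B, Subvariety X B → B ⊆ clo k X Z → Def k B →
      gap k X Z ≤ dim B → dim (hull 𝒮 B) ≤ d → B ⊆ W) → clo k X Z ⊆ W := by
    intro W₀ hW₀ hW₀B
    by_contra hcon
    obtain ⟨W, hW, hZW, hWA⟩ := exists_cover (k := k) hX hZ hTs (hd T hT) hZT hW₀ hcon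
    have h1 : Z ⊆ D ∪ W := by
      refine hdense _ (hDc.union hW) ?_
      rintro x ⟨hx, hxX, hxd⟩
      by_cases hxD : x ∈ D
      · exact Or.inl hxD
      · right
        obtain ⟨h1, h2, h3, h4, h5, -⟩ := pink_point (k := k) hX h𝒮 hd hT hZ hZT hDA hx hxD hxd
        exact hWA (line x) (line_sub hX.cone hX.zero hxX)
          ((line_subset hZ.closed.1 hx).trans hZT) (hW₀B _ h1 h2 h3 h4 h5) (mem_line x)
    exact (hZ.irreducible _ _ hDc hW h1).elim hZD hZW
  have hgap : gap k X Z ≤ d := by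
    by_contra hcon
    refine hZD (hdense D hDc ?_)
    rintro x ⟨hx, hxX, hxd⟩
    by_contra hxD
    obtain ⟨-, -, -, h4, -, h6⟩ := pink_point (k := k) hX h𝒮 hd hT hZ hZT hDA hx hxD hxd
    omega
  refine ⟨hgap, hmain, fun hgd W hW hS => hmain W hW fun B hB hBZ hBd hBg hBh => ?_⟩
  have hBT : B ⊆ T := hBZ.trans (clo_subset hTs.closed (hd T hT) (cont_anti hZT))
  have h1 := hull_mem hX.cone h𝒮 hB hT hBT
  have h2 : B = hull 𝒮 B := by
    refine eq_of_vd hX.cone hB (h𝒮.subvariety _ h1) (subset_hull B) ?_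
    rw [dim_eq] at hBg hBh
    omega
  have h3 : dim B = d := by
    rw [← h2] at hBh
    omega
  exact hS B (h2 ▸ h1) hBZ h3

theorem dense_sUnion {Z : Set (ι → K)} {𝓑 : Set (Set (ι → K))} (h𝓑 : ∀ B ∈ 𝓑, B ⊆ Z) :
    Dense X Z (⋃₀ 𝓑) ↔ ∀ W, Closed X W → (∀ B ∈ 𝓑, B ⊆ W) → Z ⊆ W := by
  constructor
  · intro h1 W hW hB
    refine h1 W hW ?_
    rintro x ⟨-, B, hB', hx⟩
    exact hB B hB' hx
  · intro h1 W hW hB
    exact h1 W hW fun B hB' x hx => hB ⟨h𝓑 B hB' hx, B, hB', hx⟩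

/-- the case `d ≤ gap` of the question -/
theorem pink_gap (hX : QuasiProjective X) (h𝒮 : SpecialStructure X 𝒮)
    (hd : ∀ S ∈ 𝒮, Def k S) {T Z : Set (ι → K)} (hT : T ∈ 𝒮) (hZ : Subvariety X Z) (hZT : Z ⊆ T)
    {d : ℤ} (hdense : Dense X Z (lowDefect X 𝒮 d)) (hdg : d ≤ gap k X Z)
    (hAO : Dense X (clo k X Z) (⋃₀ {S | S ∈ 𝒮 ∧ S ⊆ clo k X Z}) → clo k X Z ∈ 𝒮) :
    defect 𝒮 Z ≤ d := by
  obtain ⟨h1, -, h3⟩ := pink_points (k := k) hX h𝒮 hd hT hZ hZT hdense
  have hgd : gap k X Z = d := le_antisymm h1 hdg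
  have h4 : clo k X Z ∈ 𝒮 := by
    refine hAO fun W hW hWS => h3 hgd W hW fun S hS hSZ _ => ?_
    exact fun x hx => hWS ⟨hSZ hx, S, ⟨hS, hSZ⟩, hx⟩
  have h5 : hull 𝒮 Z = clo k X Z := by
    rw [← hull_clo (k := k) h𝒮 hd hZ]
    exact Set.Subset.antisymm (hull_subset h4 le_rfl) (subset_hull _)
  rw [defect, h5]
  rw [gap] at hgd
  omega

end Pool.Agent.R370.TZ
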