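import Pool.Agent.R370.TZ.P

/-!
# Curves, and divisors of their closures over `k`
-/

set_option autoImplicit false
set_option linter.unusedSectionVars false
set_option linter.style.haveILetI false

namespace Pool.Agent.R370.TZ

open MvPolynomial Pool.Agent.R948 Pool.Agent.R948.ZP Pool.Agent.R370.JU Pool.Agent.R370.HS

/-- The subvarieties of codimension one in `V`, defined over `k`, which are contained in special
subvarieties of `T` of codimension at least two in `T`. -/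
def kDivisors (k : Type) [Field k] {K : Type} [Field K] [Algebra k K] {ι : Type} [Fintype ι]
    (X : Set (ι → K)) (𝒮 : Set (Set (ι → K))) (T V : Set (ι → K)) : Set (Set (ι → K)) :=
  {B | B ∈ atypicalDivisors X 𝒮 T V ∧ Def k B}

variable {k K : Type} [Field k] [Field K] [Algebra k K] [IsAlgClosed k] [IsAlgClosed K]
  {ι : Type} [Fintype ι] {X : Set (ι → K)} {𝒮 : Set (Set (ι → K))}

theorem one_le_vd' (hX : QuasiProjective X) {A : Set (ι → K)} (hA : Subvariety X A) :
    1 ≤ vd A := by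
  haveI : Infinite K := IsAlgClosed.instInfinite
  obtain ⟨x, hx⟩ := hA.nonempty
  have h1 := vd_mono hX.cone (line_sub hX.cone hX.zero (hA.subset hx)) hA
    (line_subset hA.closed.1 hx)
  rwa [vd_line hX.cone hX.zero (hA.subset hx)] at h1

/-- proper closed subsets of curves are finite -/
theorem curve_finite (hX : QuasiProjective X) {C W : Set (ι → K)} (hC : Subvariety X C)
    (hC1 : dim C = 1) (hW : Closed X W) (hCW : ¬ C ⊆ W) :
    {A | Subvariety X A ∧ A ⊆ C ∩ W}.Finite := by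
  haveI : Infinite K := IsAlgClosed.instInfinite
  have hlt : ∀ A, Subvariety X A → A ⊆ C ∩ W → vd A = 1 := by
    intro A hA hAC
    have h1 := vd_strict hX.cone hA hC (Set.ssubset_iff_subset_ne.2
      ⟨hAC.trans Set.inter_subset_left, fun h2 => hCW (h2 ▸ hAC.trans Set.inter_subset_right)⟩)
    have h2 := one_le_vd' hX hA
    rw [dim_eq] at hC1
    omega
  refine (components_finite (hC.closed.inter hW)).subset ?_
  rintro A ⟨hA, hAC⟩
  refine ⟨hA, hAC, fun B hB hAB hBC => ?_⟩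
  exact (eq_of_vd hX.cone hA hB hAB (by rw [hlt B hB hBC, hlt A hA hAC])).symm

theorem curve_facts (hX : QuasiProjective X) (h𝒮 : SpecialStructure X 𝒮)
    (hd : ∀ S ∈ 𝒮, Def k S) {T C : Set (ι → K)} (hT : T ∈ 𝒮) (hC : Subvariety X C)
    (hC1 : dim C = 1) (hCT : hull 𝒮 C = T) :
    (∀ B ∈ kDivisors k X 𝒮 T (clo k X C), ¬ C ⊆ B ∧
      ∀ x ∈ C ∩ B, line x ∈ atypicalDivisors X 𝒮 T C) ∧
    {A | A ∈ atypicalDivisors X 𝒮 T C ∧
      ∀ B ∈ kDivisors k X 𝒮 T (clo k X C), ¬ A ⊆ B}.Finite := by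
  haveI : Infinite K := IsAlgClosed.instInfinite
  have hTs := h𝒮.subvariety _ hT
  have hCsT : C ⊆ T := hCT ▸ subset_hull C
  have hc := clo_sub (k := k) hX hC hTs (hd T hT) hCsT
  have hcd := def_clo (k := k) hX hC hTs (hd T hT) hCsT
  obtain ⟨D, hDc, hCD, hDA⟩ := exists_jump (k := k) hX hC hTs (hd T hT) hCsT
  refine ⟨?_, ?_⟩
  · rintro B ⟨⟨hB, hBV, hBd, Y, hY, hYT, hYd, hBY⟩, hBk⟩
    refine ⟨fun h1 => ?_, ?_⟩
    · have h2 : clo k X C ⊆ B := clo_subset hB.closed hBk (cont_anti h1)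
      have h3 := vd_mono hX.cone hc hB h2
      rw [dim_eq, dim_eq] at hBd
      omega
    · rintro x ⟨hxC, hxB⟩
      have hxX := hC.subset hxC
      refine ⟨line_sub hX.cone hX.zero hxX, line_subset hC.closed.1 hxC, ?_, Y, hY, hYT, hYd,
        (line_subset hB.closed.1 hxB).trans hBY⟩
      rw [dim_line hX hxX]
      omega
  · refine (curve_finite hX hC hC1 hDc hCD).subset ?_
    rintro A ⟨⟨hA, hAC, hAd, Y, hY, hYT, hYd, hAY⟩, hAB⟩
    refine ⟨hA, Set.subset_inter hAC ?_⟩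
    by_contra hAD
    have h1 := hDA A hA hAC hAD
    have hAT : A ⊆ T := hAC.trans hCsT
    have hcA := clo_sub (k := k) hX hA hTs (hd T hT) hAT
    have hcAd := def_clo (k := k) hX hA hTs (hd T hT) hAT
    have hcAV : clo k X A ⊆ clo k X C :=
      clo_subset hc.closed hcd (cont_anti (hAC.trans (subset_clo hC.subset)))
    have hcAY : clo k X A ⊆ Y :=
      clo_subset (h𝒮.subvariety _ hY).closed (hd Y hY) (cont_anti hAY)
    have hne : clo k X A ≠ clo k X C := by
      intro h2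
      have h3 : T ⊆ Y := by
        rw [← hCT, ← hull_clo (k := k) h𝒮 hd hC, ← h2]
        exact hull_subset hY hcAY
      have h4 := vd_mono hX.cone hTs (h𝒮.subvariety _ hY) h3
      rw [dim_eq, dim_eq] at hYd
      omega
    have h5 := vd_strict hX.cone hcA hc (Set.ssubset_iff_subset_ne.2 ⟨hcAV, hne⟩)
    refine hAB (clo k X A) ⟨⟨hcA, hcAV, ?_, Y, hY, hYT, hYd, hcAY⟩, hcAd⟩ (subset_clo hA.subset)
    rw [hC1] at hAd
    rw [dim_eq] at hAd hC1
    rw [dim_eq, dim_eq]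
    omega

theorem curve_of_divisors (hX : QuasiProjective X) (h𝒮 : SpecialStructure X 𝒮)
    (hd : ∀ S ∈ 𝒮, Def k S) {T C : Set (ι → K)} (hT : T ∈ 𝒮) (hC : Subvariety X C)
    (hC1 : dim C = 1) (hCT : hull 𝒮 C = T)
    (hfin : (kDivisors k X 𝒮 T (clo k X C)).Finite) : (atypicalDivisors X 𝒮 T C).Finite := by
  obtain ⟨h1, h2⟩ := curve_facts (k := k) hX h𝒮 hd hT hC hC1 hCT
  have h3 : (⋃ B ∈ kDivisors k X 𝒮 T (clo k X C), {A | Subvariety X A ∧ A ⊆ C ∩ B}).Finite :=
    hfin.biUnion fun B hB => curve_finite hX hC hC1 hB.1.1.closed (h1 B hB).1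
  refine (h2.union h3).subset ?_
  intro A hA
  by_cases h4 : ∀ B ∈ kDivisors k X 𝒮 T (clo k X C), ¬ A ⊆ B
  · exact Or.inl ⟨hA, h4⟩
  · push Not at h4
    obtain ⟨B, hB, hAB⟩ := h4
    exact Or.inr (Set.mem_biUnion hB ⟨hA.1, Set.subset_inter hA.2.1 hAB⟩)

/-- **Curves over `K` and divisors over `k`.** -/
theorem curves_kdivisors [Uncountable K] (hX : QuasiProjective X) (h𝒮 : SpecialStructure X 𝒮)
    (hd : ∀ S ∈ 𝒮, Def k S) {T : Set (ι → K)} (hT : T ∈ 𝒮) :
    (∀ C, Subvariety X C → dim C = 1 → hull 𝒮 C = T → (atypicalDivisors X 𝒮 T C).Finite) ↔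
      (∀ V, Subvariety X V → Def k V → hull 𝒮 V = T → (kDivisors k X 𝒮 T V).Finite) := by
  constructor
  · intro h1 V hV _ hVT
    exact ((curves_divisors hX h𝒮 hT).1.1 h1 V hV hVT).subset fun B hB => hB.1
  · intro h1 C hC hC1 hCT
    have hTs := h𝒮.subvariety _ hT
    have hCsT : C ⊆ T := hCT ▸ subset_hull C
    refine curve_of_divisors hX h𝒮 hd hT hC hC1 hCT (h1 _ (clo_sub (k := k) hX hC hTs (hd T hT)
      hCsT) (def_clo (k := k) hX hC hTs (hd T hT) hCsT) ?_)
    rw [hull_clo h𝒮 hd hC, hCT]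

end Pool.Agent.R370.TZ
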