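import Pool.Agent.R370.TZ.P

/-!
# Atypical special subvarieties of varieties which are not defined over `k`
-/

set_option autoImplicit false
set_option linter.unusedSectionVars false
set_option linter.style.haveILetI false

namespace Pool.Agent.R370.TZ

open MvPolynomial Pool.Agent.R948 Pool.Agent.R948.ZP Pool.Agent.R370.JU Pool.Agent.R370.HS

variable {k K : Type} [Field k] [Field K] [Algebra k K] [IsAlgClosed k] [IsAlgClosed K]
  {ι : Type} [Fintype ι] {X : Set (ι → K)} {𝒮 : Set (Set (ι → K))} {h : Set (ι → K) → ℤ}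

/-- special subvarieties of a variety over `k` are defined over `k` -/
theorem special_def (hX : QuasiProjective X) (h𝒮 : SpecialStructure X 𝒮)
    (hd : ∀ S ∈ 𝒮, Def k S) {T V Z : Set (ι → K)} (hT : T ∈ 𝒮) (hV : Subvariety X V)
    (hVk : Def k V) (hVT : V ⊆ T) (hZ : SpecialIn X 𝒮 V Z) : Def k Z := by
  haveI : Infinite K := IsAlgClosed.instInfinite
  have hZV : Z ⊆ V := hZ.2.1.trans Set.inter_subset_left
  have hh := hull_mem hX.cone h𝒮 hZ.1 hT (hZV.trans hVT)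
  have h1 : clo k X Z ⊆ V ∩ hull 𝒮 Z := Set.subset_inter
    (clo_subset hV.closed hVk (cont_anti hZV))
    (clo_subset (h𝒮.subvariety _ hh).closed (hd _ hh) (cont_anti (subset_hull Z)))
  have h2 := hZ.2.2 _ (clo_sub (k := k) hX hZ.1 hV hVk hZV) (subset_clo hZ.1.subset) h1
  have h3 := def_clo (k := k) hX hZ.1 hV hVk hZV
  rwa [h2] at h3

/-- the special subvariety of `V` given by a subvariety -/
theorem exists_special (hX : QuasiProjective X) (h𝒮 : SpecialStructure X 𝒮)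
    {T V B : Set (ι → K)} (hT : T ∈ 𝒮) (hVT : V ⊆ T) (hB : Subvariety X B) (hBV : B ⊆ V) :
    ∃ Z, SpecialIn X 𝒮 V Z ∧ B ⊆ Z ∧ hull 𝒮 Z = hull 𝒮 B ∧ dim B ≤ dim Z := by
  haveI : Infinite K := IsAlgClosed.instInfinite
  obtain ⟨Z, hZ, hBZ⟩ := exists_component hX.cone hB
    (Set.subset_inter hBV (subset_hull (𝒮 := 𝒮) B))
  have hh := hull_mem hX.cone h𝒮 hB hT (hBV.trans hVT)
  have h1 : hull 𝒮 Z = hull 𝒮 B := Set.Subset.antisymm
    (hull_subset hh (hZ.2.1.trans Set.inter_subset_right)) (hull_mono hBZ)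
  have h2 := vd_mono hX.cone hB hZ.1 hBZ
  refine ⟨Z, ?_, hBZ, h1, by rw [dim_eq, dim_eq]; omega⟩
  unfold SpecialIn
  rw [h1]
  exact hZ

/-- **Atypical special subvarieties of `V` and of its closure over `k`.** -/
theorem atypical_closure (hX : QuasiProjective X) (h𝒮 : SpecialStructure X 𝒮)
    (hd : ∀ S ∈ 𝒮, Def k S) {T V : Set (ι → K)} (hT : T ∈ 𝒮) (hV : Subvariety X V) (hVT : V ⊆ T)
    (h : Set (ι → K) → ℤ) (d : ℤ)
    (hdense : Dense X V (⋃₀ {Z | AtypicalSpecial X 𝒮 h V Z ∧ dim V - dim Z ≤ d})) :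
    Dense X (clo k X V) (⋃₀ {Z | AtypicalSpecial X 𝒮 h (clo k X V) Z ∧ Def k Z ∧
      gap k X V ≤ dim Z ∧ dim (clo k X V) - dim Z ≤ d}) := by
  haveI : Infinite K := IsAlgClosed.instInfinite
  have hTs := h𝒮.subvariety _ hT
  have hc := clo_sub (k := k) hX hV hTs (hd T hT) hVT
  have hcd := def_clo (k := k) hX hV hTs (hd T hT) hVT
  have hcT : clo k X V ⊆ T := clo_subset hTs.closed (hd T hT) (cont_anti hVT)
  rw [dense_sUnion fun Z hZ => hZ.1.1.2.1.trans Set.inter_subset_left] at hdense ⊢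
  intro W₀ hW₀ hW₀Z
  by_contra hcon
  obtain ⟨W, hW, hVW, hWA⟩ := main_step (k := k) (n := 0) (d := d) (h := h) hX h𝒮 hd hT hV hVT
    ⟨W₀, hW₀, hcon, fun A hA hAV hAk hAd _ hAcd hAg => by
      obtain ⟨Z, hZ, hAZ, hhZ, hdZ⟩ := exists_special hX h𝒮 hT hcT hA hAV
      refine hAZ.trans (hW₀Z Z ⟨⟨hZ, ?_⟩, special_def hX h𝒮 hd hT hc hcd hcT hZ,
        hAg.trans hdZ, by omega⟩)
      refine lt_of_le_of_lt ?_ hAd
      rw [hdefect, hdefect, hhZ]
      omega⟩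
  refine hVW (hdense W hW ?_)
  rintro Z ⟨⟨hZ, hZd⟩, hZcd⟩
  have hZV : Z ⊆ V := hZ.2.1.trans Set.inter_subset_left
  refine hWA Z hZ.1 hZV hZd ?_ (by omega)
  refine le_trans ?_ (dim_le_kdim (k := k) hX hZ.1 hTs (hd T hT) (hZV.trans hVT))
  obtain ⟨x, hx⟩ := hZ.1.nonempty
  have h1 := vd_mono hX.cone (line_sub hX.cone hX.zero (hZ.1.subset hx)) hZ.1
    (line_subset hZ.1.closed.1 hx)
  rw [vd_line hX.cone hX.zero (hZ.1.subset hx)] at h1
  rw [dim_eq]
  omega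

end Pool.Agent.R370.TZ
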