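import Pool.Agent.R370.TZ.P

/-!
# Sets of points whose closures over `k` have small defect
-/

set_option autoImplicit false
set_option linter.unusedSectionVars false
set_option linter.style.haveILetI false

namespace Pool.Agent.R370.TZ

open MvPolynomial Pool.Agent.R948 Pool.Agent.R948.ZP Pool.Agent.R370.JU Pool.Agent.R370.HS

section Definitions

/-- The Zariski closure of `M` in `X`. -/
def zcl {K : Type} [Field K] {ι : Type} [Fintype ι] (X M : Set (ι → K)) : Set (ι → K) :=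
  ⋂₀ {W | Closed X W ∧ M ⊆ W}

/-- The theorem of André and Oort for `X`: a subvariety of `X` in which the special subvarieties
contained in it are Zariski dense is special. -/
def AndreOort {K : Type} [Field K] {ι : Type} [Fintype ι] (X : Set (ι → K))
    (𝒮 : Set (Set (ι → K))) : Prop :=
  ∀ V, Subvariety X V → Dense X V (⋃₀ {S | S ∈ 𝒮 ∧ S ⊆ V}) → V ∈ 𝒮

end Definitions

section

variable {K : Type} [Field K] {ι : Type} [Fintype ι] {X : Set (ι → K)}

theorem subset_zcl (M : Set (ι → K)) : M ⊆ zcl X M := fun _ hx _ hW => hW.2 hx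

theorem zcl_subset {M W : Set (ι → K)} (hW : Closed X W) (h : M ⊆ W) : zcl X M ⊆ W :=
  fun _ hx => hx W ⟨hW, h⟩

theorem zcl_closed [Infinite K] (hX : IsCone X) {M : Set (ι → K)} (hM : IsCone M) (hMX : M ⊆ X) :
    Closed X (zcl X M) := by
  have h1 : Closed X (X ∩ zeros (van M : Set (MvPolynomial ι K))) := by
    refine ⟨fun x hx c hc => ⟨hX x hx.1 c hc, ?_⟩, _, rfl⟩
    exact cone_of_hom _ (fun f hf n => van_comp hM hf n) x hx.2 c hc
  have h2 : zcl X M = X ∩ zeros (van M : Set (MvPolynomial ι K)) := by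
    refine Set.Subset.antisymm (zcl_subset h1 fun x hx => ⟨hMX hx, subset_zeros_van M hx⟩) ?_
    intro x hx W hW
    rw [← hW.1.eq]
    exact ⟨hx.1, fun f hf => hx.2 f (van_anti hW.2 hf)⟩
  rw [h2]
  exact h1

/-- the union of the components -/
theorem sUnion_components [Infinite K] (hX : QuasiProjective X) {F : Set (ι → K)}
    (hF : Closed X F) : ⋃₀ {C | IsComponent X C F} = F := by
  refine Set.Subset.antisymm (Set.sUnion_subset fun C hC => hC.2.1) fun x hx => ?_
  have hl := line_sub hX.cone hX.zero (hF.subset hx)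
  obtain ⟨C, hC, hxC⟩ := exists_component hX.cone hl (line_subset hF.1 hx)
  exact ⟨C, hC, hxC (mem_line x)⟩

/-- a set is dense in the components of its closure, away from the other components -/
theorem component_dense [Infinite K] (hX : QuasiProjective X) {M : Set (ι → K)} (hM : IsCone M)
    (hMX : M ⊆ X) {C : Set (ι → K)} (hC : IsComponent X C (zcl X M)) {W : Set (ι → K)}
    (hW : Closed X W)
    (h : ∀ x ∈ C, x ∈ M → (∀ D, IsComponent X D (zcl X M) → x ∈ D → D = C) → x ∈ W) : C ⊆ W := by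
  have hF := zcl_closed hX.cone hM hMX
  have hfin : {D | IsComponent X D (zcl X M) ∧ D ≠ C}.Finite :=
    (components_finite hF).subset fun D hD => hD.1
  have hGc : Closed X (⋃₀ {D | IsComponent X D (zcl X M) ∧ D ≠ C}) :=
    closed_sUnion hfin fun D hD => hD.1.1.closed
  have h1 : M ⊆ W ∪ ⋃₀ {D | IsComponent X D (zcl X M) ∧ D ≠ C} := by
    intro x hx
    by_cases h2 : ∀ D, IsComponent X D (zcl X M) → x ∈ D → D = C
    · left
      have h3 : x ∈ ⋃₀ {D | IsComponent X D (zcl X M)} := by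
        rw [sUnion_components hX hF]
        exact subset_zcl M hx
      obtain ⟨D, hD, hxD⟩ := h3
      have h4 := h2 D hD hxD
      subst h4
      exact h x hxD hx h2
    · right
      push Not at h2
      obtain ⟨D, hD, hxD, hDC⟩ := h2
      exact ⟨D, ⟨hD, hDC⟩, hxD⟩
  have h2 : C ⊆ W ∪ ⋃₀ {D | IsComponent X D (zcl X M) ∧ D ≠ C} :=
    hC.2.1.trans (zcl_subset (hW.union hGc) h1)
  rcases hC.1.irreducible _ _ hW hGc h2 with h3 | h3
  · exact h3
  · obtain ⟨D, hD, hCD⟩ := hC.1.mem_of_sUnion hfin (fun D hD => hD.1.1.closed) h3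
    exact absurd (hC.2.2 D hD.1.1 hCD hD.1.2.1) hD.2

end

variable {k K : Type} [Field k] [Field K] [Algebra k K] [IsAlgClosed k] [IsAlgClosed K]
  {ι : Type} [Fintype ι] {X : Set (ι → K)} {𝒮 : Set (Set (ι → K))}

/-- points whose closures over `k` have defect at most `c` -/
theorem orbit_points (hX : QuasiProjective X) (h𝒮 : SpecialStructure X 𝒮)
    (hd : ∀ S ∈ 𝒮, Def k S) {P : Set (ι → K)} {c : ℤ}
    (hP : ∀ x ∈ P, defect 𝒮 (clo k X (line x)) ≤ c) {T Z : Set (ι → K)} (hT : T ∈ 𝒮)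
    (hZ : Subvariety X Z) (hZT : Z ⊆ T) (hdense : Dense X Z P) {W₀ : Set (ι → K)}
    (hW₀ : Closed X W₀)
    (hW₀B : ∀ B, Subvariety X B → B ⊆ clo k X Z → Def k B → gap k X Z ≤ dim B →
      defect 𝒮 B ≤ c → B ⊆ W₀) : clo k X Z ⊆ W₀ := by
  haveI : Infinite K := IsAlgClosed.instInfinite
  have hTs := h𝒮.subvariety _ hT
  obtain ⟨D, hDc, hZD, hDA⟩ := exists_jump (k := k) hX hZ hTs (hd T hT) hZT
  by_contra hcon
  obtain ⟨W, hW, hZW, hWA⟩ := exists_cover (k := k) hX hZ hTs (hd T hT) hZT hW₀ hcon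
  have h1 : Z ⊆ D ∪ W := by
    refine hdense _ (hDc.union hW) ?_
    rintro x ⟨hx, hxP⟩
    by_cases hxD : x ∈ D
    · exact Or.inl hxD
    · right
      have hxX := hZ.subset hx
      have hl := line_sub hX.cone hX.zero hxX
      have hlZ : line x ⊆ Z := line_subset hZ.closed.1 hx
      have hlT := hlZ.trans hZT
      have hlD : ¬ line x ⊆ D := fun h1 => hxD (h1 (mem_line x))
      have hc := clo_sub (k := k) hX hl hTs (hd T hT) hlT
      have hcZ := clo_sub (k := k) hX hZ hTs (hd T hT) hZT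
      have hcd := def_clo (k := k) hX hl hTs (hd T hT) hlT
      have hcdZ := def_clo (k := k) hX hZ hTs (hd T hT) hZT
      have h1 := hDA (line x) hl hlZ hlD
      rw [vd_line hX.cone hX.zero hxX] at h1
      have h2 : gap k X Z ≤ dim (clo k X (line x)) := by
        rw [gap, dim_eq, dim_eq, dim_eq]
        omega
      exact hWA (line x) hl hlT (hW₀B _ hc (clo_subset hcZ.closed hcdZ
        (cont_anti (hlZ.trans (subset_clo hZ.subset)))) hcd h2 (hP x hxP)) (mem_line x)
  exact (hZ.irreducible _ _ hDc hW h1).elim hZD hZW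

/-- a subvariety of defect at most zero is special -/
theorem special_of_defect (hX : QuasiProjective X) (h𝒮 : SpecialStructure X 𝒮)
    {A T : Set (ι → K)} (hA : Subvariety X A) (hT : T ∈ 𝒮) (hAT : A ⊆ T)
    (h : defect 𝒮 A ≤ 0) : A ∈ 𝒮 := by
  haveI : Infinite K := IsAlgClosed.instInfinite
  have h1 := hull_mem hX.cone h𝒮 hA hT hAT
  have h2 : A = hull 𝒮 A := by
    refine eq_of_vd hX.cone hA (h𝒮.subvariety _ h1) (subset_hull A) ?_
    rw [defect, dim_eq, dim_eq] at h
    omega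
  rw [h2]
  exact h1

/-- the closure over `k` is special -/
theorem orbit_special (hX : QuasiProjective X) (h𝒮 : SpecialStructure X 𝒮)
    (hd : ∀ S ∈ 𝒮, Def k S) (hAO : AndreOort X 𝒮) {P : Set (ι → K)}
    (hP : ∀ x ∈ P, defect 𝒮 (clo k X (line x)) ≤ 0) {T Z : Set (ι → K)} (hT : T ∈ 𝒮)
    (hZ : Subvariety X Z) (hZT : Z ⊆ T) (hdense : Dense X Z P) :
    clo k X Z ∈ 𝒮 ∧ gap k X Z = defect 𝒮 Z := by
  haveI : Infinite K := IsAlgClosed.instInfinite
  have hTs := h𝒮.subvariety _ hT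
  have hcZ := clo_sub (k := k) hX hZ hTs (hd T hT) hZT
  have hcT : clo k X Z ⊆ T := clo_subset hTs.closed (hd T hT) (cont_anti hZT)
  have h1 : clo k X Z ∈ 𝒮 := by
    refine hAO _ hcZ fun W hW hWS => ?_
    refine orbit_points (k := k) hX h𝒮 hd hP hT hZ hZT hdense hW fun B hB hBZ _ _ hBc => ?_
    have h2 := special_of_defect hX h𝒮 hB hT (hBZ.trans hcT) hBc
    exact fun x hx => hWS ⟨hBZ hx, B, ⟨h2, hBZ⟩, hx⟩
  refine ⟨h1, ?_⟩
  have h5 : hull 𝒮 Z = clo k X Z := by
    rw [← hull_clo (k := k) h𝒮 hd hZ]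
    exact Set.Subset.antisymm (hull_subset h1 le_rfl) (subset_hull _)
  rw [defect, h5, gap]

/-- **The closure of the intersection of a variety with an orbit of generic points.** -/
theorem orbit_components (hX : QuasiProjective X) (h𝒮 : SpecialStructure X 𝒮)
    (hd : ∀ S ∈ 𝒮, Def k S) (hAO : AndreOort X 𝒮) {P : Set (ι → K)} (hPc : IsCone P)
    (hP : ∀ x ∈ P, defect 𝒮 (clo k X (line x)) ≤ 0) {T V : Set (ι → K)} (hT : T ∈ 𝒮)
    (hV : Subvariety X V) (hVT : V ⊆ T) :
    {C | IsComponent X C (zcl X (V ∩ P))}.Finite ∧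
    ⋃₀ {C | IsComponent X C (zcl X (V ∩ P))} = zcl X (V ∩ P) ∧
    (∀ C, IsComponent X C (zcl X (V ∩ P)) → C ⊆ V ∧ clo k X C ∈ 𝒮 ∧ gap k X C = defect 𝒮 C) ∧
    (Def k V → (∀ x ∈ P, Dense X (hull 𝒮 (line x)) P) →
      ∀ C, IsComponent X C (zcl X (V ∩ P)) → C ∈ 𝒮) := by
  haveI : Infinite K := IsAlgClosed.instInfinite
  have hTs := h𝒮.subvariety _ hT
  have hM : IsCone (V ∩ P) := fun x hx c hc => ⟨hV.closed.1 x hx.1 c hc, hPc x hx.2 c hc⟩
  have hMX : V ∩ P ⊆ X := fun x hx => hV.subset hx.1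
  have hF := zcl_closed hX.cone hM hMX
  have hFV : zcl X (V ∩ P) ⊆ V := zcl_subset hV.closed Set.inter_subset_left
  refine ⟨components_finite hF, sUnion_components hX hF, fun C hC => ?_, fun hVd hPd C hC => ?_⟩
  · have hCV := hC.2.1.trans hFV
    have h1 : Dense X C P := by
      intro W hW hWC
      exact component_dense hX hM hMX hC hW fun x hx hxM _ => hWC ⟨hx, hxM.2⟩
    exact ⟨hCV, orbit_special hX h𝒮 hd hAO hP hT hC.1 (hCV.trans hVT) h1⟩
  · have hCV := hC.2.1.trans hFV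
    refine hAO C hC.1 fun W hW hWS => component_dense hX hM hMX hC hW fun x hx hxM hxD => ?_
    have hxX := hC.1.subset hx
    have hl := line_sub hX.cone hX.zero hxX
    have hlV : line x ⊆ V := line_subset hV.closed.1 hxM.1
    have hlT := hlV.trans hVT
    have hc := clo_sub (k := k) hX hl hTs (hd T hT) hlT
    have hcV : clo k X (line x) ⊆ V := clo_subset hV.closed hVd (cont_anti hlV)
    have hcS : clo k X (line x) ∈ 𝒮 :=
      special_of_defect hX h𝒮 hc hT (hcV.trans hVT) (hP x hxM.2)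
    have hh : hull 𝒮 (line x) = clo k X (line x) := by
      rw [← hull_clo (k := k) h𝒮 hd hl]
      exact Set.Subset.antisymm (hull_subset hcS le_rfl) (subset_hull _)
    have h1 := hPd x hxM.2
    rw [hh] at h1
    have h2 : clo k X (line x) ⊆ zcl X (V ∩ P) :=
      h1 _ hF fun y hy => subset_zcl _ ⟨hcV hy.1, hy.2⟩
    obtain ⟨E, hE, hcE⟩ := exists_component hX.cone hc h2
    have hxc : x ∈ clo k X (line x) := subset_clo hl.subset (mem_line x)
    have h3 := hxD E hE (hcE hxc)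
    subst h3
    exact hWS ⟨hx, _, ⟨hcS, hcE⟩, hxc⟩

end Pool.Agent.R370.TZ
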