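import Pool.Agent.R370.TZ.R
import Pool.Agent.R370.TZ.S

/-!
# Varieties whose closure over `k` has large dimension
-/

set_option autoImplicit false
set_option linter.unusedSectionVars false
set_option linter.style.haveILetI false

namespace Pool.Agent.R370.TZ

open MvPolynomial Pool.Agent.R948 Pool.Agent.R948.ZP Pool.Agent.R370.JU Pool.Agent.R370.HS

section Definitions

/-- The union of the atypical special subvarieties of `V`: the irreducible components `Z` of the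
intersections `V ∩ hull Z` with `dim (hull Z) - dim Z < dim (hull V) - dim V`. -/
def atypicalLocus {K : Type} [Field K] {ι : Type} [Fintype ι] (X : Set (ι → K))
    (𝒮 : Set (Set (ι → K))) (V : Set (ι → K)) : Set (ι → K) :=
  ⋃₀ {Z | IsComponent X Z (V ∩ hull 𝒮 Z) ∧ defect 𝒮 Z < defect 𝒮 V}

/-- The union of the special subvarieties contained in `V`. -/
def specialLocus {K : Type} [Field K] {ι : Type} [Fintype ι]
    (𝒮 : Set (Set (ι → K))) (V : Set (ι → K)) : Set (ι → K) :=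
  ⋃₀ {S | S ∈ 𝒮 ∧ S ⊆ V}

end Definitions

variable {k K : Type} [Field k] [Field K] [Algebra k K] [IsAlgClosed k] [IsAlgClosed K]
  {ι : Type} [Fintype ι] {X : Set (ι → K)} {𝒮 : Set (Set (ι → K))}

theorem Dense.mono {Z M N : Set (ι → K)} (h : Dense X Z M) (hMN : M ⊆ N) : Dense X Z N :=
  fun W hW hWN => h W hW fun _ hx => hWN ⟨hx.1, hMN hx.2⟩

theorem defect_nonneg (hX : QuasiProjective X) (h𝒮 : SpecialStructure X 𝒮) {A T : Set (ι → K)}
    (hA : Subvariety X A) (hT : T ∈ 𝒮) (hAT : A ⊆ T) : 0 ≤ defect 𝒮 A := by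
  haveI : Infinite K := IsAlgClosed.instInfinite
  have h1 := hull_mem hX.cone h𝒮 hA hT hAT
  have h2 := vd_mono hX.cone hA (h𝒮.subvariety _ h1) (subset_hull A)
  rw [defect, dim_eq, dim_eq]
  omega

/-- the atypical locus of `V` and that of its closure over `k` -/
theorem atypicalLocus_closure (hX : QuasiProjective X) (h𝒮 : SpecialStructure X 𝒮)
    (hd : ∀ S ∈ 𝒮, Def k S) {T V : Set (ι → K)} (hT : T ∈ 𝒮) (hV : Subvariety X V) (hVT : V ⊆ T)
    (hdense : Dense X V (atypicalLocus X 𝒮 V)) :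
    Dense X (clo k X V) (atypicalLocus X 𝒮 (clo k X V)) := by
  haveI : Infinite K := IsAlgClosed.instInfinite
  have h1 : Dense X V (⋃₀ {Z | AtypicalSpecial X 𝒮 dim V Z ∧ dim V - dim Z ≤ dim V + 1}) := by
    refine hdense.mono ?_
    rintro x ⟨Z, hZ, hx⟩
    refine ⟨Z, ⟨⟨hZ.1, hZ.2⟩, ?_⟩, hx⟩
    rw [dim_eq, dim_eq]
    omega
  refine (atypical_closure (k := k) hX h𝒮 hd hT hV hVT dim _ h1).mono ?_
  rintro x ⟨Z, hZ, hx⟩
  exact ⟨Z, ⟨hZ.1.1, hZ.1.2⟩, hx⟩

theorem not_dense_of_special (hX : QuasiProjective X) (h𝒮 : SpecialStructure X 𝒮)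
    {T V : Set (ι → K)} (hT : T ∈ 𝒮) (hV : Subvariety X V) (hVT : V ⊆ T) (h0 : defect 𝒮 V ≤ 0) :
    ¬ Dense X V (atypicalLocus X 𝒮 V) := by
  intro hdense
  obtain ⟨x, hx⟩ := hV.nonempty
  refine hdense ∅ (closed_empty X) ?_ hx
  rintro y ⟨hy, Z, ⟨hZ, hZd⟩, -⟩
  have h1 := defect_nonneg hX h𝒮 hZ.1 hT ((hZ.2.1.trans Set.inter_subset_left).trans hVT)
  omega

/-- **Subvarieties whose codimension is at most the gap.** -/
theorem codim_le_gap (hX : QuasiProjective X) (h𝒮 : SpecialStructure X 𝒮)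
    (hd : ∀ S ∈ 𝒮, Def k S) {T V : Set (ι → K)} (hT : T ∈ 𝒮) (hV : Subvariety X V) (hVT : V ⊆ T)
    (hg : defect 𝒮 V ≤ gap k X V) : ¬ Dense X V (atypicalLocus X 𝒮 V) := by
  intro hdense
  have hTs := h𝒮.subvariety _ hT
  have hc := clo_sub (k := k) hX hV hTs (hd T hT) hVT
  have hcT : clo k X V ⊆ T := clo_subset hTs.closed (hd T hT) (cont_anti hVT)
  have h1 := defect_clo (k := k) h𝒮 hd hV
  exact not_dense_of_special hX h𝒮 hT hc hcT (by omega)
    (atypicalLocus_closure (k := k) hX h𝒮 hd hT hV hVT hdense)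

/-- **Codimension one more.** -/
theorem codim_le_gap_add_one (hX : QuasiProjective X) (h𝒮 : SpecialStructure X 𝒮)
    (hd : ∀ S ∈ 𝒮, Def k S) {T V : Set (ι → K)} (hT : T ∈ 𝒮) (hV : Subvariety X V) (hVT : V ⊆ T)
    (hAO : Dense X (clo k X V) (specialLocus 𝒮 (clo k X V)) → clo k X V ∈ 𝒮)
    (hg : defect 𝒮 V ≤ gap k X V + 1) : ¬ Dense X V (atypicalLocus X 𝒮 V) := by
  intro hdense
  have hTs := h𝒮.subvariety _ hT
  have hc := clo_sub (k := k) hX hV hTs (hd T hT) hVT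
  have hcT : clo k X V ⊆ T := clo_subset hTs.closed (hd T hT) (cont_anti hVT)
  have h1 := defect_clo (k := k) h𝒮 hd hV
  have h2 := atypicalLocus_closure (k := k) hX h𝒮 hd hT hV hVT hdense
  have h3 : clo k X V ∈ 𝒮 := by
    refine hAO (h2.mono ?_)
    rintro x ⟨Z, ⟨hZ, hZd⟩, hx⟩
    have hZc := hZ.2.1.trans Set.inter_subset_left
    exact ⟨Z, ⟨special_of_defect hX h𝒮 hZ.1 hT (hZc.trans hcT) (by omega), hZc⟩, hx⟩
  have h4 : defect 𝒮 (clo k X V) ≤ 0 := by
    rw [defect, Set.Subset.antisymm (hull_subset h3 le_rfl) (subset_hull _), sub_self]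
  exact not_dense_of_special hX h𝒮 hT hc hcT h4 h2

end Pool.Agent.R370.TZ
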