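import Pool.Agent.R370.TZ.V

/-!
# Return sets and points over the field of definition
-/

set_option autoImplicit false
set_option linter.unusedSectionVars false
set_option linter.style.haveILetI false

namespace Pool.Agent.R370.TZ

open MvPolynomial Pool.Agent.R948 Pool.Agent.R948.ZP Pool.Agent.R370.JU Pool.Agent.R370.HS

theorem union_of_shift {R : Set ℕ} (a : ℕ) (h : IsUnionOfProgressions {n | n + a ∈ R}) :
    IsUnionOfProgressions R := by
  classical
  obtain ⟨F, hF⟩ := h
  refine ⟨((Finset.range a).filter (· ∈ R)).image (fun b => (b, 0)) ∪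
    F.image (fun p => (p.1 + a, p.2)), ?_⟩
  ext n
  constructor
  · intro hn
    by_cases hna : n < a
    · exact ⟨(n, 0), Finset.mem_union_left _ (Finset.mem_image.2
        ⟨n, Finset.mem_filter.2 ⟨Finset.mem_range.2 hna, hn⟩, rfl⟩), 0, rfl⟩
    · obtain ⟨i, rfl⟩ := Nat.exists_eq_add_of_le (not_lt.1 hna)
      have h1 : i ∈ {n | n + a ∈ R} := by
        rw [Set.mem_ofPred_eq, add_comm]
        exact hn
      rw [hF] at h1
      obtain ⟨p, hp, j, hj⟩ := h1
      refine ⟨(p.1 + a, p.2), Finset.mem_union_right _ (Finset.mem_image.2 ⟨p, hp, rfl⟩), j, ?_⟩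
      simp only
      omega
  · rintro ⟨q, hq, j, hj⟩
    rcases Finset.mem_union.1 hq with hq | hq
    · obtain ⟨b, hb, rfl⟩ := Finset.mem_image.1 hq
      simp only [zero_mul, add_zero] at hj
      rw [hj]
      exact (Finset.mem_filter.1 hb).2
    · obtain ⟨p, hp, rfl⟩ := Finset.mem_image.1 hq
      simp only at hj
      have h1 : p.1 + p.2 * j ∈ {n | n + a ∈ R} := by
        rw [hF]
        exact ⟨p, hp, j, rfl⟩
      rw [Set.mem_ofPred_eq] at h1
      have h2 : n = p.1 + p.2 * j + a := by omega
      rw [h2]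
      exact h1

section

variable {k K : Type} [Field k] [Field K] [Algebra k K] {ι : Type} [Fintype ι] {X : Set (ι → K)}

/-- a point whose line is defined over `k` is a `k`-point -/
theorem exists_point {α : ι → K} (hα : α ≠ 0) (h : Def k (line α)) :
    ∃ a : ι → k, line α = line fun i => algebraMap k K (a i) := by
  classical
  obtain ⟨i₀, hi₀⟩ := Function.ne_iff.1 hα
  rw [Pi.zero_apply] at hi₀
  have h1 : ∃ e, (Module.Basis.ofVectorSpace k K).repr (α i₀) e ≠ 0 := by
    by_contra hcon
    push Not at hcon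
    apply hi₀
    rw [← (Module.Basis.ofVectorSpace k K).repr.map_eq_zero_iff]
    ext e
    exact hcon e
  obtain ⟨e, he⟩ := h1
  set c : K → k := fun z => (Module.Basis.ofVectorSpace k K).repr z e with hc
  have h2 : ∀ j, algebraMap k K (c (α i₀)) * α j = algebraMap k K (c (α j)) * α i₀ := by
    intro j
    have h3 : monomial (Finsupp.single j 1) (α i₀) + monomial (Finsupp.single i₀ 1) (-α j) ∈
        (cont k (line α)).map (MvPolynomial.map (algebraMap k K)) := by
      rw [h]
      rintro _ ⟨b, hb, rfl⟩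
      rw [map_add, eval_monomial, eval_monomial, Finsupp.prod_single_index (by simp),
        Finsupp.prod_single_index (by simp), pow_one, pow_one, Pi.smul_apply, Pi.smul_apply,
        smul_eq_mul, smul_eq_mul]
      ring
    have h4 : eval α (MvPolynomial.map (algebraMap k K) (comp (k := k) e
        (monomial (Finsupp.single j 1) (α i₀) + monomial (Finsupp.single i₀ 1) (-α j)))) = 0 :=
      comp_mem (k := k) _ h3 e α (mem_line α)
    rw [eval_map_eq, comp_add, comp_monomial, comp_monomial, map_add, aeval_monomial,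
      aeval_monomial, Finsupp.prod_single_index (by simp), Finsupp.prod_single_index (by simp),
      pow_one, pow_one] at h4
    have h5 : c (-α j) = -c (α j) := by
      rw [hc]
      simp only [map_neg, Finsupp.neg_apply]
    change algebraMap k K (c (α i₀)) * α j + algebraMap k K (c (-α j)) * α i₀ = 0 at h4
    rw [h5, map_neg] at h4
    linear_combination h4
  refine ⟨fun j => c (α j), ?_⟩
  have h6 : algebraMap k K (c (α i₀)) ≠ 0 := by
    rw [map_ne_zero]
    exact he
  apply line_eq
  refine ⟨α i₀ / algebraMap k K (c (α i₀)), div_ne_zero hi₀ h6, ?_⟩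
  funext j
  rw [Pi.smul_apply, smul_eq_mul, div_mul_eq_mul_div, eq_div_iff h6, mul_comm (α j), h2 j, mul_comm]

theorem homComp_comp (e : Module.Basis.ofVectorSpaceIndex k K) (n : ℕ) (f : MvPolynomial ι K) :
    homogeneousComponent n (comp (k := k) e f) = comp e (homogeneousComponent n f) := by
  ext m
  rw [coeff_homogeneousComponent, coeff_comp, coeff_comp, coeff_homogeneousComponent]
  split_ifs
  · rfl
  · rw [map_zero]

theorem def_of_point [IsAlgClosed k] [Infinite K] (hX : IsCone X) {a : ι → k}
    (hl : Subvariety X (line fun i => algebraMap k K (a i))) :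
    Def k (line fun i => algebraMap k K (a i)) := by
  haveI := cont_prime (k := k) hX hl
  refine le_antisymm (map_cont_le _) fun f hf => ?_
  rw [mem_map_iff]
  intro e
  rw [mem_cont_line]
  intro n
  have h1 := van_comp (line_cone _) hf n _ (mem_line _)
  rw [homComp_comp, ← eval_map_eq, eval_map_alg, eval_comp, h1, map_zero, map_zero]

/-- the return set depends only on the ideal of the point -/
theorem return_congr [Infinite K] {Φ : (ι → K) → (ι → K)} (hΦ : RegularOver k X Φ) {x y : ι → K}
    (hx : x ∈ X) (hy : y ∈ X) {V : Set (ι → K)} (hV : Closed X V) (hVd : Def k V)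
    (h : cont k (line x) = cont k (line y)) (n : ℕ) : Φ^[n] x ∈ V ↔ Φ^[n] y ∈ V := by
  have h1 : ∀ n, Φ^[n] x ∈ X ∧ Φ^[n] y ∈ X ∧
      cont k (line (Φ^[n] x)) = cont k (line (Φ^[n] y)) := by
    intro n
    induction n with
    | zero => exact ⟨hx, hy, h⟩
    | succ n ih =>
      rw [Function.iterate_succ_apply', Function.iterate_succ_apply']
      exact ⟨(hΦ _ ih.1).1, (hΦ _ ih.2.1).1, cont_step hΦ ih.1 ih.2.1 ih.2.2⟩
  obtain ⟨h2, h3, h4⟩ := h1 n
  rw [mem_iff_cont hV hVd h2, mem_iff_cont hV hVd h3, h4]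

variable [IsAlgClosed k] [IsAlgClosed K]

theorem def_clo' {A V : Set (ι → K)} (hX : QuasiProjective X) (hA : Subvariety X A)
    (hVX : V ⊆ X) (hVd : Def k V) (hAV : A ⊆ V) : Def k (clo k X A) := by
  unfold Def
  rw [cont_clo' (k := k) hX hA hVX hVd hAV, van_clo' (k := k) hX hA hVX hVd hAV]

/-- **Reduction to points of small transcendence degree.** -/
theorem return_iff (hX : QuasiProjective X) {Φ : (ι → K) → (ι → K)} (hΦ : RegularOver k X Φ)
    {V : Set (ι → K)} (hV : Closed X V) (hVd : Def k V) {d : ℤ}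
    (hd : ∀ A, Subvariety X A → A ⊆ V → dim A ≤ d) :
    (∀ α ∈ X, IsUnionOfProgressions {n | Φ^[n] α ∈ V}) ↔
      ∀ α ∈ V, dim (clo k X (line α)) < d → IsUnionOfProgressions {n | Φ^[n] α ∈ V} := by
  constructor
  · exact fun h α hα _ => h α (hV.subset hα)
  · intro h α hα
    by_cases h1 : ∀ n, Φ^[n] α ∈ V → d ≤ dim (clo k X (line (Φ^[n] α)))
    · exact return_set hX hΦ hα hV hVd hd h1
    · push Not at h1
      obtain ⟨a, ha, had⟩ := h1
      have h2 := h _ ha had
      refine union_of_shift a ?_
      have h3 : {n | n + a ∈ {n | Φ^[n] α ∈ V}} = {n | Φ^[n] (Φ^[a] α) ∈ V} := by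
        ext n
        rw [Set.mem_ofPred_eq, Set.mem_ofPred_eq, Set.mem_ofPred_eq, Function.iterate_add_apply]
      rw [h3]
      exact h2

/-- curves -/
theorem return_iff_curves (hX : QuasiProjective X) {Φ : (ι → K) → (ι → K)}
    (hΦ : RegularOver k X Φ) {V : Set (ι → K)} (hV : Closed X V) (hVd : Def k V)
    (hd : ∀ A, Subvariety X A → A ⊆ V → dim A ≤ 1) :
    (∀ α ∈ X, IsUnionOfProgressions {n | Φ^[n] α ∈ V}) ↔
      ∀ a : ι → k, (fun i => algebraMap k K (a i)) ∈ V →
        IsUnionOfProgressions {n | Φ^[n] (fun i => algebraMap k K (a i)) ∈ V} := by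
  haveI : Infinite K := IsAlgClosed.instInfinite
  rw [return_iff hX hΦ hV hVd hd]
  constructor
  · intro h a ha
    refine h _ ha ?_
    have hl := line_sub hX.cone hX.zero (hV.subset ha)
    rw [clo_eq hl (def_of_point hX.cone hl), dim_line hX (hV.subset ha)]
    norm_num
  · intro h α hα hα1
    have hαX := hV.subset hα
    have hl := line_sub hX.cone hX.zero hαX
    have hlV := line_subset hV.1 hα
    have hc := clo_sub' (k := k) hX hl hV.subset hVd hlV
    have h1 : clo k X (line α) = line α := by
      refine (eq_of_vd hX.cone hl hc (subset_clo hl.subset) ?_).symm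
      rw [vd_line hX.cone hX.zero hαX]
      rw [dim_eq] at hα1
      omega
    have h2 := def_clo' (k := k) hX hl hV.subset hVd hlV
    rw [h1] at h2
    have hα0 : α ≠ 0 := fun h0 => hX.zero (h0 ▸ hαX)
    obtain ⟨a, ha⟩ := exists_point hα0 h2
    have h3 : (fun i => algebraMap k K (a i)) ∈ V := hlV (ha ▸ mem_line _)
    have h4 := h a h3
    have h5 : {n | Φ^[n] α ∈ V} = {n | Φ^[n] (fun i => algebraMap k K (a i)) ∈ V} := by
      ext n
      exact return_congr hΦ hαX (hV.subset h3) hV hVd (by rw [ha]) n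
    rw [h5]
    exact h4

end

end Pool.Agent.R370.TZ
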